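import Pool.Agent.Lib.MP_88c759_an.Defs

namespace Pool.Agent.Lib.MP_88c759_an

open scoped BigOperators
open Matrix

abbrev V3 := Fin 3 → ℝ
abbrev M3 := Matrix (Fin 3) (Fin 3) ℝ

/-- second invariant of a 3×3 matrix -/
def cc2 (M : M3) : ℝ :=
  M 0 0 * M 1 1 - M 0 1 * M 1 0 + M 0 0 * M 2 2 - M 0 2 * M 2 0 + M 1 1 * M 2 2 - M 1 2 * M 2 1

def tr3 (M : M3) : ℝ := M 0 0 + M 1 1 + M 2 2

lemma nsq3 (p : V3) : nsq p = p 0 ^ 2 + p 1 ^ 2 + p 2 ^ 2 := by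
  simp [nsq, Fin.sum_univ_three]

lemma nsq_nonneg {n : ℕ} (p : Fin n → ℝ) : 0 ≤ nsq p :=
  Finset.sum_nonneg fun _ _ => sq_nonneg _

lemma eval_charpoly3 (M : M3) (t : ℝ) :
    M.charpoly.eval t = t ^ 3 - tr3 M * t ^ 2 + cc2 M * t - M.det := by
  rw [Matrix.eval_charpoly, Matrix.det_fin_three, Matrix.det_fin_three]
  simp [tr3, cc2, Matrix.scalar_apply, Matrix.diagonal_apply]
  ring

lemma sigma_one (κ : V3) : sigma 1 κ = κ 0 + κ 1 + κ 2 := by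
  simp [sigma, Finset.powersetCard_one, Fin.sum_univ_three]

lemma sigma_two (κ : V3) : sigma 2 κ = κ 0 * κ 1 + κ 0 * κ 2 + κ 1 * κ 2 := by
  have h : Finset.powersetCard 2 (Finset.univ : Finset (Fin 3)) =
      {{0, 1}, {0, 2}, {1, 2}} := by decide
  rw [sigma, h, Finset.sum_insert (by decide), Finset.sum_insert (by decide),
    Finset.sum_singleton, Finset.prod_pair (by decide), Finset.prod_pair (by decide),
    Finset.prod_pair (by decide)]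
  ring

lemma of_charpoly {M : M3} {κ : V3}
    (h : M.charpoly = ∏ i, (Polynomial.X - Polynomial.C (κ i))) :
    tr3 M = sigma 1 κ ∧ cc2 M = sigma 2 κ := by
  have key : ∀ t : ℝ, t ^ 3 - tr3 M * t ^ 2 + cc2 M * t - M.det =
      (t - κ 0) * (t - κ 1) * (t - κ 2) := by
    intro t
    rw [← eval_charpoly3, h]
    simp [Fin.prod_univ_three]
  have h0 := key 0
  have h1 := key 1
  have h2 := key (-1)
  rw [sigma_one, sigma_two]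
  constructor
  · linear_combination h0 - h1 / 2 - h2 / 2
  · linear_combination h1 / 2 - h2 / 2

lemma charpoly_of {M : M3} {κ : V3} (h1 : tr3 M = κ 0 + κ 1 + κ 2)
    (h2 : cc2 M = κ 0 * κ 1 + κ 0 * κ 2 + κ 1 * κ 2) (h3 : M.det = κ 0 * κ 1 * κ 2) :
    M.charpoly = ∏ i, (Polynomial.X - Polynomial.C (κ i)) := by
  apply Polynomial.funext
  intro t
  rw [eval_charpoly3, h1, h2, h3]
  simp [Fin.prod_univ_three]
  ring

/-- inverse metric -/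
noncomputable def ginv (p : V3) : M3 := 1 + Matrix.of fun i j => p i * p j / (1 - nsq p)

lemma inv_metric (p : V3) (hp : nsq p < 1) :
    ((1 : M3) - Matrix.of fun i j => p i * p j)⁻¹ = ginv p := by
  apply Matrix.inv_eq_right_inv
  have hN : 1 - nsq p ≠ 0 := by linarith
  have hN' : 1 - (p 0 ^ 2 + p 1 ^ 2 + p 2 ^ 2) ≠ 0 := by rwa [← nsq3]
  ext i j
  fin_cases i <;> fin_cases j <;>
    simp [ginv, Matrix.mul_apply, Fin.sum_univ_three, nsq3, Matrix.one_apply] <;>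
    field_simp <;> ring

/-- quadratic form -/
def qf (A : M3) (ξ : V3) : ℝ := ∑ i, ∑ j, ξ i * ξ j * A i j

lemma qf3 (A : M3) (ξ : V3) : qf A ξ =
    ξ 0 * ξ 0 * A 0 0 + ξ 0 * ξ 1 * A 0 1 + ξ 0 * ξ 2 * A 0 2 +
    (ξ 1 * ξ 0 * A 1 0 + ξ 1 * ξ 1 * A 1 1 + ξ 1 * ξ 2 * A 1 2) +
    (ξ 2 * ξ 0 * A 2 0 + ξ 2 * ξ 1 * A 2 1 + ξ 2 * ξ 2 * A 2 2) := by
  simp [qf, Fin.sum_univ_three]

/-- `T(A) = tr (g⁻¹ A)` with `s = w²` -/
def TT (s : ℝ) (p : V3) (A : M3) : ℝ := tr3 A + s * qf A p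

def Ap (A : M3) (p : V3) (i : Fin 3) : ℝ := A i 0 * p 0 + A i 1 * p 1 + A i 2 * p 2

/-- `Q(A,B) = tr (g⁻¹ A g⁻¹ B)` for symmetric `A, B` -/
def QQ (s : ℝ) (p : V3) (A B : M3) : ℝ :=
  A 0 0 * B 0 0 + A 1 1 * B 1 1 + A 2 2 * B 2 2 + 2 * (A 0 1 * B 0 1 + A 0 2 * B 0 2 + A 1 2 * B 1 2)
    + 2 * s * (Ap A p 0 * Ap B p 0 + Ap A p 1 * Ap B p 1 + Ap A p 2 * Ap B p 2)
    + s ^ 2 * (qf A p * qf B p)

def Sym3 (A : M3) : Prop := A 1 0 = A 0 1 ∧ A 2 0 = A 0 2 ∧ A 2 1 = A 1 2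

lemma tr3_ginv (p : V3) (A : M3) :
    tr3 (ginv p * A) = TT (1 - nsq p)⁻¹ p A := by
  simp [tr3, TT, ginv, qf3, Matrix.mul_apply, Fin.sum_univ_three, Matrix.one_apply,
    div_eq_mul_inv]
  ring

lemma cc2_ginv (p : V3) (A : M3) (hA : Sym3 A) :
    cc2 (ginv p * A) = (TT (1 - nsq p)⁻¹ p A ^ 2 - QQ (1 - nsq p)⁻¹ p A A) / 2 := by
  obtain ⟨h1, h2, h3⟩ := hA
  simp only [cc2, TT, QQ, Ap, tr3, ginv, qf3, Matrix.mul_apply, Fin.sum_univ_three,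
    div_eq_mul_inv, Matrix.add_apply, Matrix.of_apply, h1, h2, h3]
  generalize (1 - nsq p)⁻¹ = s
  simp
  ring

lemma QQ_cs (s : ℝ) (hs : 0 ≤ s) (p : V3) (A B : M3) :
    QQ s p A B ^ 2 ≤ QQ s p A A * QQ s p B B := by
  have key : ∀ t : ℝ, 0 ≤ QQ s p A A * (t * t) + (2 * QQ s p A B) * t + QQ s p B B := by
    intro t
    have e : QQ s p A A * (t * t) + (2 * QQ s p A B) * t + QQ s p B B =
        (t * A 0 0 + B 0 0) ^ 2 + (t * A 1 1 + B 1 1) ^ 2 + (t * A 2 2 + B 2 2) ^ 2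
        + 2 * ((t * A 0 1 + B 0 1) ^ 2 + (t * A 0 2 + B 0 2) ^ 2 + (t * A 1 2 + B 1 2) ^ 2)
        + 2 * s * ((t * Ap A p 0 + Ap B p 0) ^ 2 + (t * Ap A p 1 + Ap B p 1) ^ 2
            + (t * Ap A p 2 + Ap B p 2) ^ 2)
        + s ^ 2 * (t * qf A p + qf B p) ^ 2 := by
      simp only [QQ]; ring
    rw [e]; positivity
  have := discrim_le_zero key
  rw [discrim] at this
  nlinarith

lemma QQ_self_nonneg (s : ℝ) (hs : 0 ≤ s) (p : V3) (A : M3) : 0 ≤ QQ s p A A := by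
  have e : QQ s p A A = A 0 0 ^ 2 + A 1 1 ^ 2 + A 2 2 ^ 2 + 2 * (A 0 1 ^ 2 + A 0 2 ^ 2 + A 1 2 ^ 2)
      + 2 * s * (Ap A p 0 ^ 2 + Ap A p 1 ^ 2 + Ap A p 2 ^ 2) + s ^ 2 * qf A p ^ 2 := by
    simp only [QQ]; ring
  rw [e]; positivity

/-- Cauchy–Schwarz for a PSD form -/
lemma psd_cs (P : M3) (hP : Sym3 P) (hpsd : ∀ ξ, 0 ≤ qf P ξ) (ξ η : V3) :
    (ξ 0 * Ap P η 0 + ξ 1 * Ap P η 1 + ξ 2 * Ap P η 2) ^ 2 ≤ qf P ξ * qf P η := by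
  obtain ⟨h1, h2, h3⟩ := hP
  have key : ∀ t : ℝ, 0 ≤ qf P ξ * (t * t) +
      (2 * (ξ 0 * Ap P η 0 + ξ 1 * Ap P η 1 + ξ 2 * Ap P η 2)) * t + qf P η := by
    intro t
    have := hpsd (fun i => t * ξ i + η i)
    have e : qf P (fun i => t * ξ i + η i) = qf P ξ * (t * t) +
      (2 * (ξ 0 * Ap P η 0 + ξ 1 * Ap P η 1 + ξ 2 * Ap P η 2)) * t + qf P η := by
      simp only [qf3, Ap, h1, h2, h3]; ring
    rwa [e] at this
  have := discrim_le_zero key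
  rw [discrim] at this
  nlinarith

lemma psd_facts (s : ℝ) (hs : 0 ≤ s) (p : V3) (P : M3) (hP : Sym3 P) (hpsd : ∀ ξ, 0 ≤ qf P ξ) :
    0 ≤ TT s p P ∧ QQ s p P P ≤ TT s p P ^ 2 := by
  have d0 : qf P ![1, 0, 0] = P 0 0 := by simp [qf3]
  have d1 : qf P ![0, 1, 0] = P 1 1 := by simp [qf3]
  have d2 : qf P ![0, 0, 1] = P 2 2 := by simp [qf3]
  have p0 : 0 ≤ P 0 0 := d0 ▸ hpsd _
  have p1 : 0 ≤ P 1 1 := d1 ▸ hpsd _
  have p2 : 0 ≤ P 2 2 := d2 ▸ hpsd _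
  have pp := hpsd p
  have m01 := psd_cs P hP hpsd ![1, 0, 0] ![0, 1, 0]
  have m02 := psd_cs P hP hpsd ![1, 0, 0] ![0, 0, 1]
  have m12 := psd_cs P hP hpsd ![0, 1, 0] ![0, 0, 1]
  have a0 := psd_cs P hP hpsd ![1, 0, 0] p
  have a1 := psd_cs P hP hpsd ![0, 1, 0] p
  have a2 := psd_cs P hP hpsd ![0, 0, 1] p
  rw [d0, d1] at m01
  rw [d0, d2] at m02
  rw [d1, d2] at m12
  rw [d0] at a0
  rw [d1] at a1
  rw [d2] at a2
  simp [Ap] at m01 m02 m12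
  simp at a0 a1 a2
  refine ⟨by simp only [TT, tr3]; positivity, ?_⟩
  have e : TT s p P ^ 2 - QQ s p P P =
      2 * ((P 0 0 * P 1 1 - P 0 1 ^ 2) + (P 0 0 * P 2 2 - P 0 2 ^ 2) + (P 1 1 * P 2 2 - P 1 2 ^ 2))
      + 2 * s * ((P 0 0 * qf P p - Ap P p 0 ^ 2) + (P 1 1 * qf P p - Ap P p 1 ^ 2)
        + (P 2 2 * qf P p - Ap P p 2 ^ 2)) := by
    simp only [TT, QQ, tr3]; ring
  have : 0 ≤ TT s p P ^ 2 - QQ s p P P := by
    rw [e]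
    have := sub_nonneg.2 m01
    have := sub_nonneg.2 m02
    have := sub_nonneg.2 m12
    have := sub_nonneg.2 a0
    have := sub_nonneg.2 a1
    have := sub_nonneg.2 a2
    positivity
  linarith

/-- the quantity `2 σ₂ (g⁻¹ A)` -/
def DD (s : ℝ) (p : V3) (A : M3) : ℝ := TT s p A ^ 2 - QQ s p A A

lemma DD_mono (s : ℝ) (hs : 0 ≤ s) (p : V3) (A B : M3) (hA : Sym3 A) (hB : Sym3 B)
    (hpsd : ∀ ξ, qf A ξ ≤ qf B ξ) (hT : 0 < TT s p A) (hD : 0 < DD s p A) :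
    DD s p A ≤ DD s p B := by
  set P : M3 := B - A with hPdef
  have hP : Sym3 P := by
    obtain ⟨a1, a2, a3⟩ := hA
    obtain ⟨b1, b2, b3⟩ := hB
    refine ⟨?_, ?_, ?_⟩ <;> simp [hPdef, *]
  have hq : ∀ ξ, qf P ξ = qf B ξ - qf A ξ := by
    intro ξ; simp only [qf3, hPdef, Matrix.sub_apply]; ring
  have hpsd' : ∀ ξ, 0 ≤ qf P ξ := fun ξ => by rw [hq]; linarith [hpsd ξ]
  obtain ⟨hTP, hQP⟩ := psd_facts s hs p P hP hpsd'
  have e : DD s p B = DD s p A + 2 * (TT s p A * TT s p P - QQ s p A P)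
      + (TT s p P ^ 2 - QQ s p P P) := by
    simp only [DD, TT, QQ, Ap, tr3, qf3, hPdef, Matrix.sub_apply]; ring
  have cs := QQ_cs s hs p A P
  have hQA : QQ s p A A ≤ TT s p A ^ 2 := by simp only [DD] at hD; linarith
  have h1 : QQ s p A P ^ 2 ≤ (TT s p A * TT s p P) ^ 2 := by
    calc QQ s p A P ^ 2 ≤ QQ s p A A * QQ s p P P := cs
      _ ≤ TT s p A ^ 2 * TT s p P ^ 2 :=
        mul_le_mul hQA hQP (QQ_self_nonneg s hs p P) (sq_nonneg _)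
      _ = (TT s p A * TT s p P) ^ 2 := by ring
  have h2 : QQ s p A P ≤ TT s p A * TT s p P :=
    le_trans (le_abs_self _) (abs_le_of_sq_le_sq' h1 (by positivity) |> abs_le.2)
  rw [e]; linarith

end Pool.Agent.Lib.MP_88c759_an
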