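import Pool.Agent.Lib.MP_88c759_an.Mink.Stmt
import Pool.Agent.Results.MP_88c759_an.NoSolution

/-!
The counterexample in the language of the existence theorem.
-/

set_option autoImplicit false

namespace Pool.Agent.Lib.MP_88c759_an.Both

open scoped ContDiff
open Set Metric Pool.Agent.Mink

variable {n : ℕ}

/-- The passage from functions on `Fin n` to Euclidean space. -/
noncomputable abbrev em (n : ℕ) : (Fin n → ℝ) ≃L[ℝ] Q.Rn n := (EuclideanSpace.equiv (Fin n) ℝ).symm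

lemma nsq_eq (y : Fin n → ℝ) : nsq y = ‖em n y‖ ^ 2 := by
  rw [EuclideanSpace.real_norm_sq_eq]
  rfl

lemma grad_comp (u : Q.Rn n → ℝ) (y : Fin n → ℝ) (i : Fin n) :
    grad (u ∘ em n) y i = fderiv ℝ u (em n y) (EuclideanSpace.single i 1) := by
  rw [grad, ContinuousLinearEquiv.comp_right_fderiv]
  rfl

lemma ud : UniqueDiffOn ℝ (closure (ball (0 : Q.Rn n) 1)) :=
  uniqueDiffOn_convex (convex_ball _ _).closure
    ⟨0, interior_mono subset_closure (by simp [isOpen_ball.interior_eq])⟩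

lemma grad_eq {u : Q.Rn n → ℝ} {y : Fin n → ℝ} (hy : em n y ∈ closure (ball (0 : Q.Rn n) 1))
    (hu : ContDiffAt ℝ 2 u (em n y)) :
    Q.grad (ball 0 1) u (em n y) = em n (grad (u ∘ em n) y) := by
  ext i
  have h1 := inner_gradientWithin_left (𝕜 := ℝ) (f := u) (s := closure (ball (0 : Q.Rn n) 1))
    (x := em n y) (y := EuclideanSpace.single i 1)
  rw [fderivWithin_eq_fderiv (ud _ hy) (hu.differentiableAt (by norm_num)), ← grad_comp,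
    EuclideanSpace.inner_single_right] at h1
  simpa [Q.grad] using h1

lemma hess_eq {u : Q.Rn n → ℝ} {y : Fin n → ℝ} (hy : em n y ∈ closure (ball (0 : Q.Rn n) 1))
    (hu : ContDiffAt ℝ 2 u (em n y)) : Q.hess (ball 0 1) u (em n y) = hess (u ∘ em n) y := by
  ext i j
  have h1 : (fun z => grad (u ∘ em n) z j) =
      (fun x => fderiv ℝ u x (EuclideanSpace.single j 1)) ∘ em n := funext fun z => grad_comp u z j
  have h2 : DifferentiableAt ℝ (fderiv ℝ u) (em n y) :=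
    (hu.fderiv_right (m := 1) (by norm_num)).differentiableAt (by norm_num)
  rw [Q.hess, hess, Matrix.of_apply, Matrix.of_apply, h1, grad_comp,
    iteratedFDerivWithin_eq_iteratedFDeriv ud hu hy, iteratedFDeriv_two_apply,
    fderiv_clm_apply h2 (differentiableAt_const _)]
  simp

lemma curv_iff {u : Q.Rn n → ℝ} {y : Fin n → ℝ} (hy : em n y ∈ closure (ball (0 : Q.Rn n) 1))
    (hu : ContDiffAt ℝ 2 u (em n y)) (κ : Fin n → ℝ) :
    Q.IsCurv (ball 0 1) u (em n y) κ ↔ IsPrincipalCurv (u ∘ em n) y κ := by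
  have h1 : Q.metric (ball 0 1) u (em n y) = metric (u ∘ em n) y := by
    ext i j
    rw [Q.metric, metric, grad_eq hy hu, Matrix.sub_apply, Matrix.one_apply]
    rfl
  have h2 : Q.sff (ball 0 1) u (em n y) = sff (u ∘ em n) y := by
    rw [Q.sff, sff, grad_eq hy hu, hess_eq hy hu, nsq_eq]
  rw [Q.IsCurv, IsPrincipalCurv, h1, h2]

lemma mem_cl {y : Fin n → ℝ} : em n y ∈ closure (ball (0 : Q.Rn n) 1) ↔ nsq y ≤ 1 := by
  rw [closure_ball _ one_ne_zero, mem_closedBall_zero_iff, nsq_eq,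
    sq_le_one_iff₀ (norm_nonneg _)]

lemma mem_bl {y : Fin n → ℝ} : em n y ∈ ball (0 : Q.Rn n) 1 ↔ nsq y < 1 := by
  rw [mem_ball_zero_iff, nsq_eq, sq_lt_one_iff₀ (norm_nonneg _)]

lemma mem_fr {y : Fin n → ℝ} : em n y ∈ frontier (ball (0 : Q.Rn n) 1) ↔ nsq y = 1 := by
  rw [frontier_ball _ one_ne_zero, mem_sphere_zero_iff_norm, nsq_eq,
    pow_eq_one_iff_of_nonneg (norm_nonneg _) two_ne_zero]

lemma fd (x : Q.Rn n) : fderiv ℝ (fun x : Q.Rn n => ‖x‖ ^ 2 - 1) x = 2 • innerSL ℝ x := by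
  rw [fderiv_sub_const, fderiv_norm_sq_apply]

lemma fd_norm {x : Q.Rn n} (hx : ‖x‖ = 1) :
    ‖fderiv ℝ (fun x : Q.Rn n => ‖x‖ ^ 2 - 1) x‖ = 2 := by
  rw [fd, two_nsmul, ← two_smul ℝ, norm_smul, innerSL_apply_norm, hx]
  simp

lemma defining {x : Q.Rn n} (hx : ‖x‖ = 1) :
    Q.IsDefining (ball 0 1) x fun x => ‖x‖ ^ 2 - 1 := by
  refine ⟨univ, isOpen_univ, mem_univ _, ((contDiff_norm_sq ℝ).sub contDiff_const).contDiffOn,
    fun h => ?_, fun y _ => ?_⟩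
  · have h1 := fd_norm hx
    rw [h, norm_zero] at h1
    norm_num at h1
  · rw [mem_ball_zero_iff, sub_neg, sq_lt_one_iff₀ (norm_nonneg _)]

lemma fr_norm {x : Q.Rn n} (hx : x ∈ frontier (ball (0 : Q.Rn n) 1)) : ‖x‖ = 1 := by
  rwa [frontier_ball _ one_ne_zero, mem_sphere_zero_iff_norm] at hx

lemma smooth_ball : Q.IsSmoothDomain (ball (0 : Q.Rn n) 1) :=
  ⟨isOpen_ball, (convex_ball _ _).isConnected (nonempty_ball.2 one_pos), isBounded_ball,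
    fun _ hx => ⟨_, defining (fr_norm hx)⟩⟩

lemma curv_ball {x : Q.Rn 3} (hx : ‖x‖ = 1) : Q.IsBdryCurv (ball 0 1) x fun _ => 1 := by
  have : Fact (Module.finrank ℝ (Q.Rn 3) = 2 + 1) := ⟨by simp⟩
  have hx0 : x ≠ 0 := fun h => by simp [h] at hx
  let b := OrthonormalBasis.fromOrthogonalSpanSingleton (𝕜 := ℝ) 2 hx0
  have hb : Orthonormal ℝ fun i => (b i : Q.Rn 3) :=
    b.orthonormal.comp_linearIsometry (ℝ ∙ x)ᗮ.subtypeₗᵢ
  refine ⟨_, defining hx, fun i => (b i : Q.Rn 3), hb, fun i => ?_, fun i j => ?_⟩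
  · have h1 := Submodule.mem_orthogonal_singleton_iff_inner_right.1 (b i).2
    simp [fd, h1]
  · have h1 : fderiv ℝ (fun x : Q.Rn 3 => ‖x‖ ^ 2 - 1) =
        ((2 • innerSL ℝ : Q.Rn 3 →L[ℝ] Q.Rn 3 →L[ℝ] ℝ) : Q.Rn 3 → Q.Rn 3 →L[ℝ] ℝ) :=
      funext fun y => fd y
    rw [fd_norm hx, iteratedFDeriv_two_apply, h1, ContinuousLinearMap.fderiv]
    have h2 := orthonormal_iff_ite.1 hb i j
    simp only [Matrix.cons_val_zero, Matrix.cons_val_one, smul_apply, nsmul_eq_mul, Nat.cast_ofNat]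
    rw [mul_div_cancel_left₀ _ two_ne_zero]
    exact h2

theorem counter : ∃ (ψ : Q.Rn 3 × ℝ × Q.Rn 3 → ℝ) (ub : Q.Rn 3 → ℝ),
    (∀ x₀ ∈ frontier (ball (0 : Q.Rn 3) 1), ∃ κ, Q.IsBdryCurv (ball 0 1) x₀ κ ∧
      Q.InGamma (2 - 1) κ) ∧
    ContDiffOn ℝ ∞ ψ (closure (ball 0 1) ×ˢ univ ×ˢ ball 0 1) ∧
    (∀ x ∈ closure (ball (0 : Q.Rn 3) 1), ∀ z, ∀ p ∈ ball (0 : Q.Rn 3) 1,
      0 < ψ (x, z, p) ∧ 0 ≤ deriv (fun s => ψ (x, s, p)) z) ∧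
    Q.Spacelike (ball (0 : Q.Rn 3) 1) (fun _ => 1 / 4) ∧
    Q.IsSub 2 (ball 0 1) ψ (fun _ => 1 / 4) ub ∧ ContDiff ℝ ∞ ub ∧
    (∀ x ∈ closure (ball (0 : Q.Rn 3) 1), ∃ κ, Q.IsCurv (ball 0 1) ub x κ ∧ Q.InGamma 2 κ) ∧
    ¬ ∃ u, Q.IsSol 2 (ball 0 1) ψ (fun _ => 1 / 4) u := by
  obtain ⟨ψ, ub, h1, h2, ⟨c, hc, h3⟩, h4, h5, h6⟩ :=
    Pool.Agent.Results.MP_88c759_an.NoSolution.result
  have hs := (em 3).surjective
  have hub : ContDiff ℝ ∞ (ub ∘ (em 3).symm) := h2.comp (em 3).symm.contDiff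
  have hub2 : ∀ x, ContDiffAt ℝ 2 (ub ∘ (em 3).symm) x := fun x =>
    (hub.of_le (WithTop.coe_le_coe.2 le_top : ((2 : ℕ∞) : WithTop ℕ∞) ≤ ∞)).contDiffAt
  have hc' : (ub ∘ (em 3).symm) ∘ em 3 = ub := rfl
  have h7 : ∀ y, em 3 y ∈ closure (ball (0 : Q.Rn 3) 1) → ∃ κ,
      Q.IsCurv (ball 0 1) (ub ∘ (em 3).symm) (em 3 y) κ ∧ Q.InGamma 2 κ ∧
        ψ y (ub y) (grad ub y) ≤ Q.sigma 2 κ := fun y hy => by
    obtain ⟨κ, k1, k2, k3⟩ := h4 y (mem_cl.1 hy)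
    exact ⟨κ, (curv_iff hy (hub2 _) κ).2 (hc'.symm ▸ k1), k2, k3⟩
  refine ⟨fun q => ψ ((em 3).symm q.1) q.2.1 ((em 3).symm q.2.2), ub ∘ (em 3).symm,
    fun x hx => ⟨_, curv_ball (fr_norm hx), fun j j1 j2 => ?_⟩, ?_, ?_,
    ⟨contDiffOn_const, 0, one_pos, fun x _ => ?_⟩,
    ⟨⟨fun x _ => (hub2 x).contDiffWithinAt, √c, ?_, ?_⟩, ?_, ?_⟩, hub, ?_, ?_⟩
  · obtain rfl : j = 1 := by omega
    simp [Q.sigma]
  · rintro ⟨x, z, p⟩ ⟨hx, -, hp⟩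
    obtain ⟨y, rfl⟩ := hs x
    obtain ⟨q, rfl⟩ := hs p
    have h8 := (h1 y z q (mem_cl.1 hx) (mem_bl.1 hp)).1
    have h9 : ContDiff ℝ ∞ fun q : Q.Rn 3 × ℝ × Q.Rn 3 =>
        ((em 3).symm q.1, q.2.1, (em 3).symm q.2.2) := by fun_prop
    exact (ContDiffAt.comp (em 3 y, z, em 3 q)
      (g := fun q : (Fin 3 → ℝ) × ℝ × (Fin 3 → ℝ) => ψ q.1 q.2.1 q.2.2) h8
        h9.contDiffAt).contDiffWithinAt
  · intro x hx z p hp
    obtain ⟨y, rfl⟩ := hs x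
    obtain ⟨q, rfl⟩ := hs p
    have h8 := (h1 y z q (mem_cl.1 hx) (mem_bl.1 hp)).2
    simp only [ContinuousLinearEquiv.symm_apply_apply]
    exact ⟨h8.1, h8.2.le⟩
  · simp [Q.grad, gradientWithin]
  · exact (Real.sqrt_lt' one_pos).2 (by simpa using hc)
  · intro x hx
    obtain ⟨y, rfl⟩ := hs x
    rw [grad_eq hx (hub2 _), hc']
    exact Real.le_sqrt_of_sq_le (nsq_eq _ ▸ h3 y (mem_cl.1 hx))
  · intro x hx
    obtain ⟨y, rfl⟩ := hs x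
    obtain ⟨κ, k1, k2, k3⟩ := h7 y (subset_closure hx)
    refine ⟨κ, k1, k2, ?_⟩
    rw [grad_eq (subset_closure hx) (hub2 _), hc']
    exact k3
  · intro x hx
    obtain ⟨y, rfl⟩ := hs x
    exact h5 y (mem_fr.1 hx)
  · intro x hx
    obtain ⟨y, rfl⟩ := hs x
    obtain ⟨κ, k1, k2, -⟩ := h7 y hx
    exact ⟨κ, k1, k2⟩
  · rintro ⟨u, ⟨u1, θ, hθ, u2⟩, u3, u4⟩
    have ua : ∀ y, nsq y < 1 → ContDiffAt ℝ 2 u (em 3 y) := fun y hy =>
      u1.contDiffAt (Filter.mem_of_superset (isOpen_ball.mem_nhds (mem_bl.2 hy)) subset_closure)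
    refine h6 ⟨u ∘ em 3, u1.continuousOn.comp (em 3).continuous.continuousOn
      fun y hy => mem_cl.2 hy, fun y hy => ((ua y hy).comp y (em 3).contDiff.contDiffAt).contDiffWithinAt,
      fun y hy => ?_, fun y hy => u4 _ (mem_fr.2 hy)⟩
    have hy' := subset_closure (mem_bl.2 hy)
    obtain ⟨κ, k1, k2, k3⟩ := u3 _ (mem_bl.2 hy)
    have h8 := u2 _ hy'
    rw [grad_eq hy' (ua y hy)] at h8 k3
    refine ⟨mem_bl.1 (mem_ball_zero_iff.2 (h8.trans_lt hθ)), κ, (curv_iff hy' (ua y hy) κ).1 k1,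
      k2, k3⟩

end Pool.Agent.Lib.MP_88c759_an.Both
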