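import Pool.Agent.Lib.MP_88c759_an.Alg

namespace Pool.Agent.Lib.MP_88c759_an

open scoped BigOperators Topology ContDiff
open Filter

/-- `σ₂ (g⁻¹ h)` as a function of gradient and Hessian -/
noncomputable def curv2 (p : V3) (A : M3) : ℝ := (1 - nsq p)⁻¹ * DD (1 - nsq p)⁻¹ p A / 2

lemma shape_facts (u : V3 → ℝ) (x : V3) (hp : nsq (grad u x) < 1) (hs : Sym3 (hess u x)) :
    tr3 ((metric u x)⁻¹ * sff u x) =
      TT (1 - nsq (grad u x))⁻¹ (grad u x) (hess u x) / √(1 - nsq (grad u x)) ∧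
    cc2 ((metric u x)⁻¹ * sff u x) = curv2 (grad u x) (hess u x) := by
  have hN : 0 < 1 - nsq (grad u x) := by linarith
  have hsq : √(1 - nsq (grad u x)) ^ 2 = 1 - nsq (grad u x) := Real.sq_sqrt hN.le
  have hw : √(1 - nsq (grad u x)) ≠ 0 := (Real.sqrt_pos.2 hN).ne'
  have hs' : Sym3 (sff u x) := by
    obtain ⟨a, b, c⟩ := hs
    refine ⟨?_, ?_, ?_⟩ <;> simp [sff, *]
  rw [metric, inv_metric _ hp, tr3_ginv, cc2_ginv _ _ hs']
  constructor
  · simp only [TT, tr3, qf3, sff, Matrix.of_apply]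
    ring
  · have e : (1 - nsq (grad u x))⁻¹ = ((√(1 - nsq (grad u x)))⁻¹) ^ 2 := by
      rw [inv_pow, hsq]
    simp only [curv2, DD, TT, QQ, Ap, tr3, qf3, sff, Matrix.of_apply, div_eq_mul_inv]
    generalize (1 - nsq (grad u x))⁻¹ = s at *
    rw [e]
    ring

lemma contDiffAt_grad {n : ℕ} {u : (Fin n → ℝ) → ℝ} {x : Fin n → ℝ} {m k : ℕ∞ω}
    (hu : ContDiffAt ℝ k u x) (hmk : m + 1 ≤ k) (i : Fin n) :
    ContDiffAt ℝ m (fun y => grad u y i) x := by
  unfold grad
  exact (hu.fderiv_right hmk).clm_apply contDiffAt_const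

lemma fderiv_apply_eq_sum {n : ℕ} (u : (Fin n → ℝ) → ℝ) (x ξ : Fin n → ℝ) :
    fderiv ℝ u x ξ = ∑ i, ξ i * grad u x i := by
  have : ξ = ∑ i, ξ i • (Pi.single i (1 : ℝ) : Fin n → ℝ) := by
    ext j; simp [Finset.sum_apply, Pi.single_apply]
  conv_lhs => rw [this]
  simp [map_sum, grad]

lemma hess_eq {n : ℕ} {u : (Fin n → ℝ) → ℝ} {x : Fin n → ℝ} (hu : ContDiffAt ℝ 2 u x)
    (i j : Fin n) :
    hess u x i j = fderiv ℝ (fderiv ℝ u) x (Pi.single i 1) (Pi.single j 1) := by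
  have h1 : DifferentiableAt ℝ (fderiv ℝ u) x :=
    (hu.fderiv_right (m := 1) (by norm_num)).differentiableAt (by norm_num)
  simp only [hess, Matrix.of_apply, grad]
  rw [fderiv_clm_apply h1 (differentiableAt_const _)]
  simp

lemma hess_sym {u : V3 → ℝ} {x : V3} (hu : ContDiffAt ℝ 2 u x) : Sym3 (hess u x) := by
  have h := hu.isSymmSndFDerivAt (by simp)
  refine ⟨?_, ?_, ?_⟩ <;> rw [hess_eq hu, hess_eq hu] <;> exact h.eq _ _

lemma grad_sub {n : ℕ} {u v : (Fin n → ℝ) → ℝ} {x : Fin n → ℝ} (hu : DifferentiableAt ℝ u x)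
    (hv : DifferentiableAt ℝ v x) (i : Fin n) :
    grad (fun y => u y - v y) x i = grad u x i - grad v x i := by
  simp only [grad]
  rw [fderiv_fun_sub hu hv]
  simp

lemma grad_congr {n : ℕ} {u v : (Fin n → ℝ) → ℝ} {x : Fin n → ℝ} (h : u =ᶠ[𝓝 x] v) :
    grad u x = grad v x := by
  ext i; simp only [grad]; rw [h.fderiv_eq]

lemma hess_sub {n : ℕ} {u v : (Fin n → ℝ) → ℝ} {x : Fin n → ℝ} (hu : ContDiffAt ℝ 2 u x)
    (hv : ContDiffAt ℝ 2 v x) (i j : Fin n) :
    hess (fun y => u y - v y) x i j = hess u x i j - hess v x i j := by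
  have hu' : ∀ᶠ y in 𝓝 x, DifferentiableAt ℝ u y :=
    (hu.eventually (by simp)).mono fun y hy => hy.differentiableAt (by norm_num)
  have hv' : ∀ᶠ y in 𝓝 x, DifferentiableAt ℝ v y :=
    (hv.eventually (by simp)).mono fun y hy => hy.differentiableAt (by norm_num)
  have e : (fun y => grad (fun y => u y - v y) y j) =ᶠ[𝓝 x]
      fun y => grad u y j - grad v y j := by
    filter_upwards [hu', hv'] with y h1 h2 using grad_sub h1 h2 j
  simp only [hess, Matrix.of_apply]
  rw [grad_congr e, grad_sub]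
  · exact (contDiffAt_grad (m := 1) hu (by norm_num) j).differentiableAt (by norm_num)
  · exact (contDiffAt_grad (m := 1) hv (by norm_num) j).differentiableAt (by norm_num)

/-- necessary second-order condition at a local maximum -/
lemma qf_nonpos_of_isLocalMax {f : V3 → ℝ} {x : V3} (hf : ContDiffAt ℝ 2 f x)
    (hmax : IsLocalMax f x) (ξ : V3) : qf (hess f x) ξ ≤ 0 := by
  by_contra hpos
  push Not at hpos
  let γ : ℝ → V3 := fun t => x + t • ξ
  have hγ : ∀ t, HasDerivAt γ ξ t := fun t => by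
    have := ((hasDerivAt_id t).smul_const ξ).const_add x
    rw [one_smul] at this
    exact this
  have hγ0 : γ 0 = x := by simp [γ]
  have hγc : Tendsto γ (𝓝 0) (𝓝 x) := by
    have := (hγ 0).continuousAt.tendsto
    rwa [hγ0] at this
  have hf' : ∀ᶠ y in 𝓝 x, DifferentiableAt ℝ f y :=
    (hf.eventually (by simp)).mono fun y hy => hy.differentiableAt (by norm_num)
  have hd : deriv (f ∘ γ) =ᶠ[𝓝 0] fun t => ∑ j, ξ j * grad f (γ t) j := by
    filter_upwards [hγc.eventually hf'] with t ht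
    rw [(ht.hasFDerivAt.comp_hasDerivAt t (hγ t)).deriv, fderiv_apply_eq_sum]
  have hdd : HasDerivAt (fun t => ∑ j, ξ j * grad f (γ t) j)
      (∑ j, ξ j * ∑ i, ξ i * hess f x i j) 0 := by
    apply HasDerivAt.fun_sum
    intro j _
    apply HasDerivAt.const_mul
    have h1 : DifferentiableAt ℝ (fun y => grad f y j) (γ 0) := by
      rw [hγ0]
      exact (contDiffAt_grad (m := 1) hf (by norm_num) j).differentiableAt (by norm_num)
    have h2 := h1.hasFDerivAt.comp_hasDerivAt (0 : ℝ) (hγ 0)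
    rw [fderiv_apply_eq_sum, hγ0] at h2
    exact h2
  have hsum : (∑ j, ξ j * ∑ i, ξ i * hess f x i j) = qf (hess f x) ξ := by
    simp only [qf3, Fin.sum_univ_three]; ring
  have h2 : deriv (deriv (f ∘ γ)) 0 = qf (hess f x) ξ := by
    rw [hd.deriv_eq, hdd.deriv, hsum]
  have hmaxγ : IsLocalMax (f ∘ γ) 0 := by
    have : IsLocalMax f (γ 0) := by rwa [hγ0]
    exact this.comp_continuous (hγ 0).continuousAt
  have hc : ContinuousAt (f ∘ γ) 0 := by
    have : ContinuousAt f (γ 0) := by rw [hγ0]; exact hf.continuousAt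
    exact this.comp (hγ 0).continuousAt
  have hmin : IsLocalMin (f ∘ γ) 0 :=
    isLocalMin_of_deriv_deriv_pos (by rw [h2]; exact hpos) hmaxγ.deriv_eq_zero hc
  have hconst : (f ∘ γ) =ᶠ[𝓝 0] fun _ => (f ∘ γ) 0 := by
    filter_upwards [hmin, hmaxγ] with t h1 h2 using le_antisymm h2 h1
  have h3 : deriv (deriv (f ∘ γ)) 0 = 0 := by
    rw [hconst.deriv.deriv_eq]
    simp
  rw [h2] at h3
  linarith

lemma grad_eq_zero_of_isLocalMax {f : V3 → ℝ} {x : V3} (hmax : IsLocalMax f x) (i : Fin 3) :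
    grad f x i = 0 := by
  simp [grad, hmax.fderiv_eq_zero]

/-- touching from above: comparison of `curv2` -/
lemma curv2_le_of_isLocalMax {u v : V3 → ℝ} {x : V3} (hu : ContDiffAt ℝ 2 u x)
    (hv : ContDiffAt ℝ 2 v x) (hmax : IsLocalMax (fun y => u y - v y) x)
    (hp : nsq (grad u x) < 1)
    (hT : 0 < TT (1 - nsq (grad u x))⁻¹ (grad u x) (hess u x))
    (hc : 0 < curv2 (grad u x) (hess u x)) :
    grad u x = grad v x ∧ curv2 (grad u x) (hess u x) ≤ curv2 (grad v x) (hess v x) := by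
  have hg : grad u x = grad v x := by
    ext i
    have := grad_eq_zero_of_isLocalMax hmax i
    rw [grad_sub (hu.differentiableAt (by norm_num)) (hv.differentiableAt (by norm_num))] at this
    linarith
  refine ⟨hg, ?_⟩
  rw [← hg]
  have hs : 0 < (1 - nsq (grad u x))⁻¹ := inv_pos.2 (by linarith)
  have hq : ∀ ξ, qf (hess u x) ξ ≤ qf (hess v x) ξ := by
    intro ξ
    have := qf_nonpos_of_isLocalMax (hu.sub hv) hmax ξ
    simp only [qf3, hess_sub hu hv] at this
    simp only [qf3]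
    linarith
  have hD : 0 < DD (1 - nsq (grad u x))⁻¹ (grad u x) (hess u x) := by
    unfold curv2 at hc
    by_contra hneg
    push Not at hneg
    have := mul_nonpos_of_nonneg_of_nonpos hs.le hneg
    linarith
  have := DD_mono _ hs.le (grad u x) _ _ (hess_sym hu) (hess_sym hv) hq hT hD
  unfold curv2
  have := mul_le_mul_of_nonneg_left this hs.le
  linarith

lemma hasFDerivAt_nsq (x : V3) :
    HasFDerivAt (fun y : V3 => nsq y)
      ((2 * x 0) • ContinuousLinearMap.proj (R := ℝ) (φ := fun _ : Fin 3 => ℝ) 0 +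
        (2 * x 1) • ContinuousLinearMap.proj (R := ℝ) (φ := fun _ : Fin 3 => ℝ) 1 +
        (2 * x 2) • ContinuousLinearMap.proj (R := ℝ) (φ := fun _ : Fin 3 => ℝ) 2) x := by
  have h := fun i : Fin 3 => (hasFDerivAt_apply (𝕜 := ℝ) (F' := fun _ : Fin 3 => ℝ) i x).pow 2
  have := ((h 0).add (h 1)).add (h 2)
  simp only [nsq3]
  refine this.congr_fderiv ?_
  ext v
  simp

lemma contDiff_nsq {k : ℕ∞ω} : ContDiff ℝ k (fun y : V3 => nsq y) := by
  simp only [nsq3]; fun_prop

lemma continuous_nsq : Continuous (fun y : V3 => nsq y) := (contDiff_nsq (k := 0)).continuous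

/-- gradient of `a(|y|²) * y_j + b(|y|²) * y_0 * y_j + c(|y|²)` -/
lemma grad_radial {a b c : ℝ → ℝ} {a' b' c' : ℝ} (x : V3) (j : Fin 3)
    (ha : HasDerivAt a a' (nsq x)) (hb : HasDerivAt b b' (nsq x)) (hc : HasDerivAt c c' (nsq x))
    (i : Fin 3) :
    grad (fun y => a (nsq y) * y j + b (nsq y) * y 0 * y j + c (nsq y)) x i =
      2 * x i * (a' * x j + b' * x 0 * x j + c') + (a (nsq x) + b (nsq x) * x 0) *
        (if i = j then 1 else 0) + b (nsq x) * x j * (if i = 0 then 1 else 0) := by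
  have hq := hasFDerivAt_nsq x
  have h := fun i : Fin 3 => (hasFDerivAt_apply (𝕜 := ℝ) (F' := fun _ : Fin 3 => ℝ) i x)
  have h1 := (((ha.comp_hasFDerivAt x hq).mul (h j)).add
    (((hb.comp_hasFDerivAt x hq).mul (h 0)).mul (h j))).add (hc.comp_hasFDerivAt x hq)
  have h2 : HasFDerivAt (fun y => a (nsq y) * y j + b (nsq y) * y 0 * y j + c (nsq y)) _ x := h1
  simp only [grad]
  rw [h2.fderiv]
  fin_cases i <;> fin_cases j <;> simp <;> ring

end Pool.Agent.Lib.MP_88c759_an
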