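import Mathlib

/-!
Spacelike graphs in Minkowski space: gradient, Hessian, shape operator, principal curvatures,
elementary symmetric functions and the cones `Γ_k`.
Points of `ℝ^n` are functions `Fin n → ℝ`; the Euclidean length is expressed through `nsq`.
-/

namespace Pool.Agent.Lib.MP_88c759_an

open scoped BigOperators

/-- Squared Euclidean length `|p|^2 = ∑ p_i^2`. -/
def nsq {n : ℕ} (p : Fin n → ℝ) : ℝ := ∑ i, p i ^ 2

/-- The gradient `Du(x)`, with entries the partial derivatives `u_i(x)`. -/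
noncomputable def grad {n : ℕ} (u : (Fin n → ℝ) → ℝ) (x : Fin n → ℝ) : Fin n → ℝ :=
  fun i => fderiv ℝ u x (Pi.single i 1)

/-- The Hessian `D²u(x)`, with entries `u_{ij}(x)`. -/
noncomputable def hess {n : ℕ} (u : (Fin n → ℝ) → ℝ) (x : Fin n → ℝ) : Matrix (Fin n) (Fin n) ℝ :=
  Matrix.of fun i j => grad (fun y => grad u y j) x i

/-- The induced metric `g_{ij} = δ_{ij} - u_i u_j` of the graph of `u`. -/
noncomputable def metric {n : ℕ} (u : (Fin n → ℝ) → ℝ) (x : Fin n → ℝ) :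
    Matrix (Fin n) (Fin n) ℝ :=
  1 - Matrix.of fun i j => grad u x i * grad u x j

/-- The second fundamental form `h_{ij} = u_{ij} / √(1 - |Du|^2)`. -/
noncomputable def sff {n : ℕ} (u : (Fin n → ℝ) → ℝ) (x : Fin n → ℝ) :
    Matrix (Fin n) (Fin n) ℝ :=
  Matrix.of fun i j => hess u x i j / √(1 - nsq (grad u x))

/-- `κ` lists the principal curvatures of the graph of `u` over `x`: the eigenvalues of
`g⁻¹ h`, with multiplicity. -/
def IsPrincipalCurv {n : ℕ} (u : (Fin n → ℝ) → ℝ) (x : Fin n → ℝ) (κ : Fin n → ℝ) : Prop :=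
  ((metric u x)⁻¹ * sff u x).charpoly = ∏ i, (Polynomial.X - Polynomial.C (κ i))

/-- The elementary symmetric function `σ_j(κ)`. -/
def sigma {n : ℕ} (j : ℕ) (κ : Fin n → ℝ) : ℝ :=
  ∑ s ∈ Finset.powersetCard j (Finset.univ : Finset (Fin n)), ∏ i ∈ s, κ i

/-- Membership in the cone `Γ_k`. -/
def InGamma {n : ℕ} (k : ℕ) (κ : Fin n → ℝ) : Prop :=
  ∀ j, 1 ≤ j → j ≤ k → 0 < sigma j κ

end Pool.Agent.Lib.MP_88c759_an
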