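import Pool.Agent.Lib.MP_88c759_an.Calc

namespace Pool.Agent.Lib.MP_88c759_an

/-- model gradient -/
def pM (α β : ℝ) (ω : V3) : V3 := fun i => α * (if i = 0 then 1 else 0) + β * ω i

/-- model Hessian -/
noncomputable def AM (β κ ε r : ℝ) (ω : V3) : M3 := Matrix.of fun i j =>
  (β * (if i = j then 1 else 0) + κ * ω i * ω j +
    ε * (ω i * (if j = 0 then 1 else 0) + ω j * (if i = 0 then 1 else 0))) / r

lemma nsq_pM (α β : ℝ) (ω : V3) (h : nsq ω = 1) :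
    nsq (pM α β ω) = α ^ 2 + β ^ 2 + 2 * α * β * ω 0 := by
  have e : nsq (pM α β ω) = α ^ 2 + β ^ 2 * nsq ω + 2 * α * β * ω 0 := by
    simp [nsq3, pM]; ring
  rw [e, h]; ring

lemma tr3_AM (β κ ε r : ℝ) (ω : V3) (h : nsq ω = 1) :
    tr3 (AM β κ ε r ω) = (2 * β + (β + κ + 2 * ε * ω 0)) / r := by
  have e : tr3 (AM β κ ε r ω) = (3 * β + κ * nsq ω + 2 * ε * ω 0) / r := by
    simp [nsq3, AM, tr3]; ring
  rw [e, h]; ring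

lemma qf_AM (α β κ ε r : ℝ) (ω : V3) (h : nsq ω = 1) :
    qf (AM β κ ε r ω) (pM α β ω) =
      ((β + κ + 2 * ε * ω 0) * (α * ω 0 + β) ^ 2 + 2 * ε * (1 - ω 0 ^ 2) * α * (α * ω 0 + β)
        + β * α ^ 2 * (1 - ω 0 ^ 2)) / r := by
  have e : qf (AM β κ ε r ω) (pM α β ω) =
      (β * (α ^ 2 + β ^ 2 * nsq ω + 2 * α * β * ω 0) + κ * (α * ω 0 + β * nsq ω) ^ 2
        + 2 * ε * (α * ω 0 + β * nsq ω) * (α + β * ω 0)) / r := by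
    simp [nsq3, AM, qf3, pM]; ring
  rw [e, h]; ring

lemma DD_AM (s α β κ ε r : ℝ) (ω : V3) (h : nsq ω = 1) :
    DD s (pM α β ω) (AM β κ ε r ω) =
      2 * ((β ^ 2 + 2 * β * (β + κ + 2 * ε * ω 0) - ε ^ 2 * (1 - ω 0 ^ 2))
        + s * (β * ((β + κ + 2 * ε * ω 0) * (α * ω 0 + β) ^ 2
            + 2 * ε * (1 - ω 0 ^ 2) * α * (α * ω 0 + β) + β * α ^ 2 * (1 - ω 0 ^ 2))
          + (β * (β + κ + 2 * ε * ω 0) - ε ^ 2 * (1 - ω 0 ^ 2))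
            * (α ^ 2 + β ^ 2 + 2 * α * β * ω 0))) / r ^ 2 := by
  have e0 : DD s (pM α β ω) (AM β κ ε r ω) = tr3 (AM β κ ε r ω) ^ 2
      - (AM β κ ε r ω 0 0 ^ 2 + AM β κ ε r ω 1 1 ^ 2 + AM β κ ε r ω 2 2 ^ 2
        + 2 * (AM β κ ε r ω 0 1 ^ 2 + AM β κ ε r ω 0 2 ^ 2 + AM β κ ε r ω 1 2 ^ 2))
      + 2 * s * (tr3 (AM β κ ε r ω) * qf (AM β κ ε r ω) (pM α β ω)
        - (Ap (AM β κ ε r ω) (pM α β ω) 0 ^ 2 + Ap (AM β κ ε r ω) (pM α β ω) 1 ^ 2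
          + Ap (AM β κ ε r ω) (pM α β ω) 2 ^ 2)) := by
    simp only [DD, TT, QQ]; ring
  have e1 : AM β κ ε r ω 0 0 ^ 2 + AM β κ ε r ω 1 1 ^ 2 + AM β κ ε r ω 2 2 ^ 2
        + 2 * (AM β κ ε r ω 0 1 ^ 2 + AM β κ ε r ω 0 2 ^ 2 + AM β κ ε r ω 1 2 ^ 2) =
      (3 * β ^ 2 + κ ^ 2 * nsq ω ^ 2 + 2 * ε ^ 2 * (nsq ω + ω 0 ^ 2) + 2 * β * κ * nsq ω
        + 4 * β * ε * ω 0 + 4 * κ * ε * ω 0 * nsq ω) / r ^ 2 := by
    simp [nsq3, AM]; ring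
  have e2 : Ap (AM β κ ε r ω) (pM α β ω) 0 ^ 2 + Ap (AM β κ ε r ω) (pM α β ω) 1 ^ 2
          + Ap (AM β κ ε r ω) (pM α β ω) 2 ^ 2 =
      (β ^ 2 * (α ^ 2 + β ^ 2 * nsq ω + 2 * α * β * ω 0)
        + (κ * (α * ω 0 + β * nsq ω) + ε * (α + β * ω 0)) ^ 2 * nsq ω
        + ε ^ 2 * (α * ω 0 + β * nsq ω) ^ 2
        + 2 * β * (κ * (α * ω 0 + β * nsq ω) + ε * (α + β * ω 0)) * (α * ω 0 + β * nsq ω)
        + 2 * β * ε * (α * ω 0 + β * nsq ω) * (α + β * ω 0)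
        + 2 * (κ * (α * ω 0 + β * nsq ω) + ε * (α + β * ω 0)) * ε * (α * ω 0 + β * nsq ω) * ω 0)
        / r ^ 2 := by
    simp [nsq3, AM, Ap, pM]; ring
  rw [e0, e1, e2, tr3_AM _ _ _ _ _ h, qf_AM _ _ _ _ _ _ h, h]
  ring

/-- the parameters of the model in terms of `m = μ(|x|²)` and `c = x₀/|x|` -/
noncomputable def alphaF (m : ℝ) : ℝ := 1 - 4 * m
noncomputable def betaF (m c : ℝ) : ℝ := m + m ^ 2 * (1 - 4 * c) / 100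
noncomputable def kappaF (m c : ℝ) : ℝ := -m + m ^ 3 * (1 - 4 * c) / 5000 + 2 * c * m ^ 2 / 25
noncomputable def epsF (m : ℝ) : ℝ := -m ^ 2 / 25

lemma mul_lb {x y a b : ℝ} (ha : 0 ≤ a) (hx : -a ≤ x) (hy0 : 0 ≤ y) (hy : y ≤ b) :
    -(a * b) ≤ x * y := by nlinarith

lemma mul_ub {x y a b : ℝ} (ha : 0 ≤ a) (hx : x ≤ a) (hy0 : 0 ≤ y) (hy : y ≤ b) :
    x * y ≤ a * b := by nlinarith

lemma mul_lb' {x y a b : ℝ} (ha : 0 ≤ a) (hx : a ≤ x) (hb : 0 ≤ b) (hy : b ≤ y) :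
    a * b ≤ x * y := mul_le_mul hx hy hb (le_trans ha hx)

lemma core_ineqs (m α bt e1 σ n w P : ℝ) (hm : 0 < m) (hm' : m ≤ 1 / 4)
    (hα0 : 0 ≤ α) (hα1 : α ≤ 1) (hσ0 : 0 ≤ σ) (hσ1 : σ ≤ 1)
    (hbt0 : 99 / 100 ≤ bt) (hbt1 : bt ≤ 102 / 100) (he0 : -(6 / 100) ≤ e1)
    (hn0 : 37 / 10 ≤ n) (hw0 : -1 ≤ w) (hw1 : w ≤ 1) (hP0 : 0 ≤ P) (hP1 : P ≤ 1) :
    0 < n * (2 * bt + m * e1) + (e1 * w ^ 2 - 2 / 25 * (σ * α * w)) ∧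
    0 < n * (bt ^ 2 + 2 * m * bt * e1 - m ^ 2 * σ / 625)
      + bt * (e1 * w ^ 2 - 2 / 25 * (σ * α * w)) + (bt * e1 - m * σ / 625) * P := by
  have hw2 : w ^ 2 ≤ 1 := by nlinarith
  have hσα : σ * α ≤ 1 * 1 := mul_ub zero_le_one hσ1 hα0 hα1
  have hσα0 : 0 ≤ σ * α := mul_nonneg hσ0 hα0
  have hσαw : w * (σ * α) ≤ 1 * (1 * 1) := mul_ub zero_le_one hw1 hσα0 hσα
  have hew : -(6 / 100 * 1) ≤ e1 * w ^ 2 := mul_lb (by norm_num) he0 (sq_nonneg w) hw2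
  have hk0 : -(14 / 100) ≤ e1 * w ^ 2 - 2 / 25 * (σ * α * w) := by linarith
  have hme : -(6 / 100 * (1 / 4)) ≤ e1 * m := mul_lb (by norm_num) he0 hm.le hm'
  have h1 : 37 / 10 * 1 ≤ n * (2 * bt + m * e1) :=
    mul_lb' (by norm_num) hn0 zero_le_one (by linarith)
  have hbe : -(6 / 100 * (102 / 100)) ≤ e1 * bt := mul_lb (by norm_num) he0 (by linarith) hbt1
  have hmbe : -(6 / 100 * (102 / 100) * (1 / 4)) ≤ e1 * bt * m :=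
    mul_lb (by norm_num) hbe hm.le hm'
  have hmσ : m * σ ≤ 1 / 4 * 1 := mul_ub (by norm_num) hm' hσ0 hσ1
  have hmσ0 : 0 ≤ m * σ := mul_nonneg hm.le hσ0
  have hmmσ : m * (m * σ) ≤ 1 / 4 * (1 / 4 * 1) := mul_ub (by norm_num) hm' hmσ0 hmσ
  have hbb : 99 / 100 * (99 / 100) ≤ bt * bt := mul_lb' (by norm_num) hbt0 (by norm_num) hbt0
  have h2 : 37 / 10 * (9 / 10) ≤ n * (bt ^ 2 + 2 * m * bt * e1 - m ^ 2 * σ / 625) :=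
    mul_lb' (by norm_num) hn0 (by norm_num) (by linarith)
  have h3 : -(14 / 100 * (102 / 100)) ≤ (e1 * w ^ 2 - 2 / 25 * (σ * α * w)) * bt :=
    mul_lb (by norm_num) hk0 (by linarith) hbt1
  have h4 : -(7 / 100 * 1) ≤ (bt * e1 - m * σ / 625) * P :=
    mul_lb (by norm_num) (by linarith) hP0 hP1
  constructor <;> linarith

lemma param_bounds (m c : ℝ) (hm : 0 < m) (hm' : m ≤ 1 / 4) (hc1 : c ≤ 1) (hc2 : -1 ≤ c)
    (α bt e1 n w : ℝ) (hα : α = 1 - 4 * m) (hbt : bt = 1 + m * (1 - 4 * c) / 100)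
    (he1 : e1 = (1 - 4 * c) * (1 + m / 50) / 100)
    (hn : n = 4 * (1 + α) - m * bt ^ 2 - 2 * α * bt * c) (hw : w = α * c + m * bt) :
    99 / 100 ≤ bt ∧ bt ≤ 102 / 100 ∧ -(6 / 100) ≤ e1 ∧ 37 / 10 ≤ n ∧ n ≤ 11 ∧ -1 ≤ w ∧ w ≤ 1 := by
  have hα0 : 0 ≤ α := by linarith
  have hα1 : α ≤ 1 := by linarith
  have a1 : -(3 * (1 / 4)) ≤ (1 - 4 * c) * m := mul_lb (by norm_num) (by linarith) hm.le hm'
  have a2 : (1 - 4 * c) * m ≤ 5 * (1 / 4) := mul_ub (by norm_num) (by linarith) hm.le hm'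
  have hbt0 : 99 / 100 ≤ bt := by linarith
  have hbt1 : bt ≤ 102 / 100 := by linarith
  have a3 : -(3 * 2) ≤ (1 - 4 * c) * (1 + m / 50) :=
    mul_lb (by norm_num) (by linarith) (by linarith) (by linarith)
  have a4 : c * bt ≤ 1 * (102 / 100) := mul_ub zero_le_one hc1 (by linarith) hbt1
  have a5 : -(1 * (102 / 100)) ≤ c * bt := mul_lb zero_le_one hc2 (by linarith) hbt1
  have a6 : bt * bt ≤ 102 / 100 * (102 / 100) := mul_ub (by norm_num) hbt1 (by linarith) hbt1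
  have a7 : bt * bt * m ≤ 102 / 100 * (102 / 100) * (1 / 4) := mul_ub (by norm_num) a6 hm.le hm'
  have a8 : 0 ≤ bt * bt * m := mul_nonneg (mul_self_nonneg _) hm.le
  have a9 : c * bt * α ≤ 1 * (102 / 100) * α := mul_le_mul_of_nonneg_right a4 hα0
  have a10 : -(1 * (102 / 100)) * α ≤ c * bt * α := mul_le_mul_of_nonneg_right a5 hα0
  have a11 : c * α ≤ 1 * α := mul_le_mul_of_nonneg_right hc1 hα0
  have a12 : -1 * α ≤ c * α := mul_le_mul_of_nonneg_right hc2 hα0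
  have a13 : bt * m ≤ 102 / 100 * m := mul_le_mul_of_nonneg_right hbt1 hm.le
  have a14 : 0 ≤ bt * m := mul_nonneg (by linarith) hm.le
  refine ⟨hbt0, hbt1, ?_, ?_, ?_, ?_, ?_⟩ <;> linarith

lemma real_ineqs (m c α β ε e N a : ℝ) (hm : 0 < m) (hm' : m ≤ 1 / 4) (hc : c ^ 2 ≤ 1)
    (hα : α = alphaF m) (hβ : β = betaF m c) (hε : ε = epsF m)
    (he : e = β + kappaF m c + 2 * ε * c) (hN : N = 1 - (α ^ 2 + β ^ 2 + 2 * α * β * c))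
    (ha : a = e * (α * c + β) ^ 2 + 2 * ε * (1 - c ^ 2) * α * (α * c + β)
      + β * α ^ 2 * (1 - c ^ 2)) :
    0 < N ∧ N ≤ 11 * m ∧ 0 < N * (2 * β + e) + a ∧
      0 < N * (β ^ 2 + 2 * β * e - ε ^ 2 * (1 - c ^ 2)) + (β * a
        + (β * e - ε ^ 2 * (1 - c ^ 2)) * (α ^ 2 + β ^ 2 + 2 * α * β * c)) := by
  have hc1 : c ≤ 1 := by nlinarith
  have hc2 : -1 ≤ c := by nlinarith
  obtain ⟨bt, hbt⟩ : ∃ bt, bt = 1 + m * (1 - 4 * c) / 100 := ⟨_, rfl⟩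
  obtain ⟨e1, he1⟩ : ∃ e1, e1 = (1 - 4 * c) * (1 + m / 50) / 100 := ⟨_, rfl⟩
  obtain ⟨σ, hσ⟩ : ∃ σ, σ = 1 - c ^ 2 := ⟨_, rfl⟩
  obtain ⟨n, hn⟩ : ∃ n, n = 4 * (1 + α) - m * bt ^ 2 - 2 * α * bt * c := ⟨_, rfl⟩
  obtain ⟨w, hw⟩ : ∃ w, w = α * c + β := ⟨_, rfl⟩
  obtain ⟨P, hP⟩ : ∃ P, P = α ^ 2 + β ^ 2 + 2 * α * β * c := ⟨_, rfl⟩
  rw [alphaF] at hα
  rw [epsF] at hε
  have hβ' : β = m * bt := by rw [hβ, betaF, hbt]; ring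
  have he' : e = m ^ 2 * e1 := by rw [he, hβ, hε, betaF, kappaF, he1]; ring
  have hN' : N = m * n := by rw [hN, hn, hβ', hα]; ring
  have hα0 : 0 ≤ α := by linarith
  have hα1 : α ≤ 1 := by linarith
  have hσ0 : 0 ≤ σ := by linarith
  have hσ1 : σ ≤ 1 := by linarith [sq_nonneg c]
  obtain ⟨hbt0, hbt1, he0, hn0, hn1, hw0, hw1⟩ :=
    param_bounds m c hm hm' hc1 hc2 α bt e1 n w hα hbt he1 hn (by rw [hw, hβ'])
  have hNpos : 0 < N := by rw [hN']; positivity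
  have hP0 : 0 ≤ P := by
    have : P = (α * c + β) ^ 2 + α ^ 2 * σ := by rw [hP, hσ]; ring
    rw [this]; positivity
  have hP1 : P ≤ 1 := by linarith
  obtain ⟨k1, k2⟩ := core_ineqs m α bt e1 σ n w P hm hm' hα0 hα1 hσ0 hσ1 hbt0 hbt1 he0 hn0
    hw0 hw1 hP0 hP1
  have ha' : a = m ^ 2 * (e1 * w ^ 2 - 2 / 25 * (σ * α * w)) + m * (bt * α ^ 2 * σ) := by
    rw [ha, ← hw, ← hσ, he', hε, hβ']; ring
  have hbtpos : 0 < bt := by linarith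
  have hrest : 0 ≤ bt * α ^ 2 * σ := by positivity
  refine ⟨hNpos, ?_, ?_, ?_⟩
  · rw [hN', mul_comm]; exact mul_le_mul_of_nonneg_right hn1 hm.le
  · have e : N * (2 * β + e) + a = m ^ 2 * (n * (2 * bt + m * e1)
        + (e1 * w ^ 2 - 2 / 25 * (σ * α * w))) + m * (bt * α ^ 2 * σ) := by
      rw [hN', ha', he', hβ']; ring
    rw [e]; positivity
  · have e : N * (β ^ 2 + 2 * β * e - ε ^ 2 * (1 - c ^ 2)) + (β * a
        + (β * e - ε ^ 2 * (1 - c ^ 2)) * (α ^ 2 + β ^ 2 + 2 * α * β * c)) =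
        m ^ 3 * (n * (bt ^ 2 + 2 * m * bt * e1 - m ^ 2 * σ / 625)
          + bt * (e1 * w ^ 2 - 2 / 25 * (σ * α * w))
          + (bt * e1 - m * σ / 625) * P) + m ^ 2 * (bt * (bt * α ^ 2 * σ)) := by
      rw [← hP, ← hσ, hN', ha', he', hε, hβ']; ring
    rw [e]; positivity

lemma model_facts (m r : ℝ) (ω : V3) (hm : 0 < m) (hm' : m ≤ 1 / 4) (hr : 0 < r) (h : nsq ω = 1) :
    let p := pM (alphaF m) (betaF m (ω 0)) ω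
    let A := AM (betaF m (ω 0)) (kappaF m (ω 0)) (epsF m) r ω
    nsq p < 1 ∧ 1 - nsq p ≤ 11 * m ∧ 0 < TT (1 - nsq p)⁻¹ p A ∧ 0 < curv2 p A := by
  intro p A
  have hc : ω 0 ^ 2 ≤ 1 := by
    rw [nsq3] at h; nlinarith [sq_nonneg (ω 1), sq_nonneg (ω 2)]
  obtain ⟨h1, h2, h3, h4⟩ := real_ineqs m (ω 0) _ _ _ _ _ _ hm hm' hc rfl rfl rfl rfl rfl rfl
  have hp : nsq p = _ := nsq_pM _ _ ω h
  rw [← hp] at h1 h2 h3
  refine ⟨by linarith, h2, ?_, ?_⟩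
  · rw [TT, tr3_AM _ _ _ _ _ h, qf_AM _ _ _ _ _ _ h]
    have := div_pos (div_pos h3 h1) hr
    refine lt_of_lt_of_eq this ?_
    field_simp
  · rw [curv2, DD_AM _ _ _ _ _ _ _ h]
    rw [← hp] at h4 ⊢
    have := div_pos (div_pos (div_pos h4 h1) h1) (pow_pos hr 2)
    refine lt_of_lt_of_eq this ?_
    field_simp

end Pool.Agent.Lib.MP_88c759_an
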