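import Pool.Agent.Lib.MP_88c759_an.Surf

namespace Pool.Agent.Lib.MP_88c759_an

open scoped BigOperators Topology ContDiff
open Filter

/-- the subsolution -/
noncomputable def ub (x : V3) : ℝ := 2 / 5 * (nsq x - 1) + 1 / 4

lemma contDiff_ub {k : ℕ∞ω} : ContDiff ℝ k ub := by
  unfold ub
  exact (contDiff_const.mul (contDiff_nsq.sub contDiff_const)).add contDiff_const

lemma grad_ub (x : V3) (i : Fin 3) : grad ub x i = 4 / 5 * x i := by
  have e : ub = fun y => (fun _ => (0 : ℝ)) (nsq y) * y 0 + (fun _ => (0 : ℝ)) (nsq y) * y 0 * y 0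
      + (fun q => 2 / 5 * (q - 1) + 1 / 4) (nsq y) := by
    ext y; simp [ub]
  have h : HasDerivAt (fun q : ℝ => 2 / 5 * (q - 1) + 1 / 4) (2 / 5 * 1) (nsq x) :=
    (((hasDerivAt_id _).sub_const 1).const_mul (2 / 5)).add_const _
  rw [e, grad_radial x 0 (hasDerivAt_const _ _) (hasDerivAt_const _ _) h]
  ring

lemma hess_ub (x : V3) (i j : Fin 3) : hess ub x i j = 4 / 5 * (if i = j then 1 else 0) := by
  have e : (fun y => grad ub y j) = fun y => (fun _ => (4 / 5 : ℝ)) (nsq y) * y j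
      + (fun _ => (0 : ℝ)) (nsq y) * y 0 * y j + (fun _ => (0 : ℝ)) (nsq y) := by
    ext y; simp [grad_ub]
  simp only [hess, Matrix.of_apply]
  rw [e, grad_radial x j (hasDerivAt_const _ _) (hasDerivAt_const _ _) (hasDerivAt_const _ _)]
  ring

lemma nsq_grad_ub (x : V3) : nsq (grad ub x) = 16 / 25 * nsq x := by
  simp only [nsq3, grad_ub]; ring

lemma ub_curv {x : V3} (hx : nsq x ≤ 1) :
    ∃ κ, IsPrincipalCurv ub x κ ∧ InGamma 2 κ ∧ 1 ≤ sigma 2 κ := by
  have hp : nsq (grad ub x) < 1 := by rw [nsq_grad_ub]; linarith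
  have hp0 := nsq_nonneg (grad ub x)
  have hN : 0 < 1 - nsq (grad ub x) := by linarith
  obtain ⟨w, hw⟩ : ∃ w, w = √(1 - nsq (grad ub x)) := ⟨_, rfl⟩
  have hw0 : 0 < w := hw ▸ Real.sqrt_pos.2 hN
  have hw1 : w ≤ 1 := by rw [hw]; exact Real.sqrt_le_one.2 (by linarith)
  obtain ⟨s, hs⟩ : ∃ s, s = (1 - nsq (grad ub x))⁻¹ := ⟨_, rfl⟩
  have hs1 : 1 ≤ s := by rw [hs]; exact (one_le_inv₀ hN).2 (by linarith)
  have hsp : s * (grad ub x 0 ^ 2 + grad ub x 1 ^ 2 + grad ub x 2 ^ 2) = s - 1 := by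
    rw [← nsq3]
    have : s * (1 - nsq (grad ub x)) = 1 := by rw [hs]; exact inv_mul_cancel₀ hN.ne'
    linarith
  obtain ⟨l, hl⟩ : ∃ l, l = 4 / 5 / w := ⟨_, rfl⟩
  have hl1 : 4 / 5 ≤ l := by
    rw [hl, le_div_iff₀ hw0]; linarith
  have hl0 : 0 < l := by linarith
  have hsff : ∀ i j, sff ub x i j = l * (if i = j then 1 else 0) := by
    intro i j
    simp only [sff, Matrix.of_apply, hess_ub, ← hw, hl]; ring
  refine ⟨![l, l, l * s], ?_, ?_, ?_⟩
  · unfold IsPrincipalCurv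
    rw [metric, inv_metric _ hp]
    apply charpoly_of
    · simp [tr3, Matrix.mul_apply, hsff, ginv, div_eq_mul_inv, ← hs]
      linear_combination l * hsp
    · simp [cc2, Matrix.mul_apply, hsff, ginv, div_eq_mul_inv, ← hs]
      linear_combination 2 * l ^ 2 * hsp
    · simp [Matrix.det_fin_three, Matrix.mul_apply, hsff, ginv, div_eq_mul_inv, ← hs]
      linear_combination l ^ 3 * hsp
  · intro j h1 h2
    have hs0 : 0 < s := by linarith
    interval_cases j
    · rw [sigma_one]; simp; positivity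
    · rw [sigma_two]; simp; positivity
  · rw [sigma_two]; simp
    have h1 : 4 / 5 * (4 / 5) ≤ l * l := mul_lb' (by norm_num) hl1 (by norm_num) hl1
    have h2 : l * l * 1 ≤ l * l * s := mul_le_mul_of_nonneg_left hs1 (by positivity)
    linarith

noncomputable def NN (x : V3) : ℝ := 1 - nsq (grad vv x)
noncomputable def GG (x : V3) : ℝ := curv2 (grad vv x) (hess vv x)
noncomputable def zeta (x p : V3) : ℝ := Real.smoothTransition (2 * NN x / (1 - nsq p) - 1)

/-- the prescribed right-hand side -/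
noncomputable def psi (K : ℝ) (x : V3) (z : ℝ) (p : V3) : ℝ :=
  zeta x p * GG x * Real.exp (K * (z - vv x - nsq (p - grad vv x)))
    + (1 - zeta x p) * Real.exp (z - 1)

lemma contDiffAt_grad_vv {x : V3} (hq : 0 < nsq x) (hq2 : nsq x < 2) :
    ContDiffAt ℝ ∞ (grad vv) x :=
  contDiffAt_pi.2 fun i => contDiffAt_grad (k := ∞) (contDiffAt_vv hq hq2) (by simp) i

lemma contDiffAt_NN {x : V3} (hq : 0 < nsq x) (hq2 : nsq x < 2) : ContDiffAt ℝ ∞ NN x :=
  contDiffAt_const.sub (contDiff_nsq.contDiffAt.comp x (contDiffAt_grad_vv hq hq2))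

lemma contDiffAt_curv2 (q : V3 × (Fin 3 → Fin 3 → ℝ)) (hq : nsq q.1 < 1) :
    ContDiffAt ℝ ∞ (fun q : V3 × (Fin 3 → Fin 3 → ℝ) => curv2 q.1 (Matrix.of q.2)) q := by
  have hs : ContDiffAt ℝ ∞ (fun q : V3 × (Fin 3 → Fin 3 → ℝ) => (1 - nsq q.1)⁻¹) q :=
    (contDiffAt_const.sub (contDiff_nsq.contDiffAt.comp q contDiffAt_fst)).inv
      (by show 1 - nsq q.1 ≠ 0; linarith)
  have hP : ContDiff ℝ ∞ (fun t : ℝ × V3 × (Fin 3 → Fin 3 → ℝ) =>
      t.1 * DD t.1 t.2.1 (Matrix.of t.2.2) / 2) := by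
    simp only [DD, TT, QQ, Ap, tr3, qf3, Matrix.of_apply]
    fun_prop
  exact hP.contDiffAt.comp q (hs.prodMk contDiffAt_id)

lemma contDiffAt_GG {x : V3} (hq : 0 < nsq x) (hq1 : nsq x ≤ 1) : ContDiffAt ℝ ∞ GG x := by
  have hq2 : nsq x < 2 := by linarith
  have h1 : ContDiffAt ℝ ∞ (fun y => (fun i j => hess vv y i j : Fin 3 → Fin 3 → ℝ)) x :=
    contDiffAt_pi.2 fun i => contDiffAt_pi.2 fun j =>
      contDiffAt_grad (k := ∞)
        (contDiffAt_grad (k := ∞) (contDiffAt_vv hq hq2) (by simp) j) (by simp) i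
  exact (contDiffAt_curv2 (grad vv x, fun i j => hess vv x i j) (vv_facts hq hq1).1).comp x
    ((contDiffAt_grad_vv hq hq2).prodMk h1)

lemma zeta_eq_zero {x p : V3} (hp : nsq p < 1) (h : 2 * NN x ≤ 1 - nsq p) : zeta x p = 0 := by
  apply Real.smoothTransition.zero_of_nonpos
  have : 2 * NN x / (1 - nsq p) ≤ 1 := (div_le_one (by linarith)).2 h
  linarith

lemma zeta_zero {p : V3} (hp : nsq p < 1) : zeta 0 p = 0 := by
  apply zeta_eq_zero hp
  rw [NN, nsq_grad_vv_zero]; linarith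

lemma zeta_self {x : V3} (hq : 0 < nsq x) (hq1 : nsq x ≤ 1) : zeta x (grad vv x) = 1 := by
  apply Real.smoothTransition.one_of_one_le
  have h : 1 - nsq (grad vv x) ≠ 0 := by linarith [(vv_facts hq hq1).1]
  rw [NN, mul_div_assoc, div_self h]; norm_num

lemma contDiffAt_psi (K : ℝ) {x : V3} (z : ℝ) {p : V3} (hx : nsq x ≤ 1) (hp : nsq p < 1) :
    ContDiffAt ℝ ∞ (fun q : V3 × ℝ × V3 => psi K q.1 q.2.1 q.2.2) (x, z, p) := by
  have hz : ContDiffAt ℝ ∞ (fun q : V3 × ℝ × V3 => Real.exp (q.2.1 - 1)) (x, z, p) := by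
    fun_prop
  have hnp : ContDiff ℝ ∞ (fun q : V3 × ℝ × V3 => nsq q.2.2) :=
    contDiff_nsq.comp (contDiff_snd.comp contDiff_snd)
  by_cases hx0 : x = 0
  · subst hx0
    refine hz.congr_of_eventuallyEq ?_
    have h1 : ∀ᶠ q : V3 × ℝ × V3 in 𝓝 (0, z, p), 1 - nsq (grad vv q.1) ≤ (1 - nsq p) / 4 :=
      (continuous_fst.tendsto ((0, z, p) : V3 × ℝ × V3)).eventually
        (N_small (η := (1 - nsq p) / 4) (by linarith))
    have h2 : ∀ᶠ q : V3 × ℝ × V3 in 𝓝 (0, z, p), nsq q.2.2 < (1 + nsq p) / 2 := by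
      apply hnp.continuous.continuousAt.eventually (gt_mem_nhds _)
      show nsq p < (1 + nsq p) / 2
      linarith
    filter_upwards [h1, h2] with q hq1 hq2
    have : zeta q.1 q.2.2 = 0 := zeta_eq_zero (by linarith) (by rw [NN]; linarith)
    simp [psi, this]
  · have hq := nsq_pos hx0
    have hq2 : nsq x < 2 := by linarith
    have hN : ContDiffAt ℝ ∞ (fun q : V3 × ℝ × V3 => NN q.1) (x, z, p) :=
      ContDiffAt.comp (g := NN) (f := Prod.fst) ((x, z, p) : V3 × ℝ × V3)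
        (contDiffAt_NN hq hq2) contDiffAt_fst
    have hG : ContDiffAt ℝ ∞ (fun q : V3 × ℝ × V3 => GG q.1) (x, z, p) :=
      (contDiffAt_GG hq hx).comp ((x, z, p) : V3 × ℝ × V3) contDiffAt_fst
    have hv : ContDiffAt ℝ ∞ (fun q : V3 × ℝ × V3 => vv q.1) (x, z, p) :=
      (contDiffAt_vv hq hq2).comp ((x, z, p) : V3 × ℝ × V3) contDiffAt_fst
    have hg : ContDiffAt ℝ ∞ (fun q : V3 × ℝ × V3 => grad vv q.1) (x, z, p) :=
      (contDiffAt_grad_vv hq hq2).comp ((x, z, p) : V3 × ℝ × V3) contDiffAt_fst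
    have hd : ContDiffAt ℝ ∞ (fun q : V3 × ℝ × V3 => nsq (q.2.2 - grad vv q.1)) (x, z, p) :=
      contDiff_nsq.contDiffAt.comp ((x, z, p) : V3 × ℝ × V3)
        ((contDiffAt_snd.comp _ contDiffAt_snd).sub hg)
    have hzeta : ContDiffAt ℝ ∞ (fun q : V3 × ℝ × V3 => zeta q.1 q.2.2) (x, z, p) := by
      unfold zeta
      refine Real.smoothTransition.contDiffAt.comp ((x, z, p) : V3 × ℝ × V3) ?_
      refine ((contDiffAt_const.mul hN).div (contDiffAt_const.sub hnp.contDiffAt) ?_).sub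
        contDiffAt_const
      show 1 - nsq p ≠ 0
      linarith
    have hz1 : ContDiffAt ℝ ∞ (fun q : V3 × ℝ × V3 => q.2.1) (x, z, p) := by fun_prop
    unfold psi
    exact ((hzeta.mul hG).mul (contDiffAt_const.mul ((hz1.sub hv).sub hd)).exp).add
      ((contDiffAt_const.sub hzeta).mul hz)

lemma convex_pos {t a b : ℝ} (h0 : 0 ≤ t) (h1 : t ≤ 1) (ha : t ≠ 0 → 0 < a) (hb : 0 < b) :
    0 < t * a + (1 - t) * b := by
  rcases h0.eq_or_lt with h | h
  · rw [← h]; linarith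
  · have := mul_pos h (ha h.ne')
    have := mul_nonneg (sub_nonneg.2 h1) hb.le
    linarith

lemma GG_pos_of_zeta {x p : V3} (hx : nsq x ≤ 1) (hp : nsq p < 1) (h : zeta x p ≠ 0) :
    0 < GG x := by
  have hx0 : x ≠ 0 := by rintro rfl; exact h (zeta_zero hp)
  exact (vv_facts (nsq_pos hx0) hx).2.2.2

lemma psi_pos (K : ℝ) {x : V3} (z : ℝ) {p : V3} (hx : nsq x ≤ 1) (hp : nsq p < 1) :
    0 < psi K x z p := by
  unfold psi
  rw [mul_assoc]
  exact convex_pos (Real.smoothTransition.nonneg _) (Real.smoothTransition.le_one _)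
    (fun h => mul_pos (GG_pos_of_zeta hx hp h) (Real.exp_pos _)) (Real.exp_pos _)

lemma deriv_psi_pos {K : ℝ} (hK : 0 < K) {x : V3} (z : ℝ) {p : V3} (hx : nsq x ≤ 1)
    (hp : nsq p < 1) : 0 < deriv (fun t => psi K x t p) z := by
  have h1 := (((((hasDerivAt_id z).sub_const (vv x)).sub_const
    (nsq (p - grad vv x))).const_mul K).exp.const_mul (zeta x p * GG x)).add
    (((hasDerivAt_id z).sub_const 1).exp.const_mul (1 - zeta x p))
  have h2 : HasDerivAt (fun t => psi K x t p) _ z := h1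
  rw [h2.deriv, mul_assoc]
  refine convex_pos (Real.smoothTransition.nonneg _) (Real.smoothTransition.le_one _)
    (fun h => mul_pos (GG_pos_of_zeta hx hp h) ?_) ?_
  · exact mul_pos (Real.exp_pos _) (by linarith)
  · exact mul_pos (Real.exp_pos _) one_pos

lemma psi_self (K : ℝ) {x : V3} (z : ℝ) (hq : 0 < nsq x) (hq1 : nsq x ≤ 1) :
    psi K x z (grad vv x) = GG x * Real.exp (K * (z - vv x)) := by
  simp [psi, zeta_self hq hq1, nsq_zero]

lemma isCompact_ball : IsCompact {x : V3 | nsq x ≤ 1} := by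
  apply Metric.isCompact_of_isClosed_isBounded (isClosed_le continuous_nsq continuous_const)
  refine (Metric.isBounded_closedBall (x := (0 : V3)) (r := 1)).subset fun x hx => ?_
  rw [mem_closedBall_zero_iff, pi_norm_le_iff_of_nonneg zero_le_one]
  intro i
  have hx' : nsq x ≤ 1 := hx
  rw [nsq3] at hx'
  rw [Real.norm_eq_abs, ← sq_le_one_iff_abs_le_one]
  have h0 : x 0 ^ 2 ≤ 1 := by linarith [sq_nonneg (x 1), sq_nonneg (x 2)]
  have h1 : x 1 ^ 2 ≤ 1 := by linarith [sq_nonneg (x 0), sq_nonneg (x 2)]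
  have h2 : x 2 ^ 2 ≤ 1 := by linarith [sq_nonneg (x 0), sq_nonneg (x 1)]
  fin_cases i
  exacts [h0, h1, h2]

lemma gap_pos {x : V3} (hq : 0 < nsq x) (hx : nsq x ≤ 1) :
    0 < vv x - ub x + nsq (grad ub x - grad vv x) := by
  rcases hx.lt_or_eq with h | h
  · have := vv_lower h
    have := nsq_nonneg (grad ub x - grad vv x)
    rw [ub]; linarith
  · have h1 : vv x - ub x = 0 := by rw [vv_sphere h, ub, h]; ring
    rw [h1, zero_add]
    have e : nsq (grad ub x - grad vv x) = (4 / 5 - betaF (1 / 4) (x 0)) ^ 2 * nsq x := by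
      have hd : dir x = x := by ext i; simp [dir, h]
      have hm : mu (nsq x) = 1 / 4 := by rw [h, mu_one]
      rw [grad_vv_model hq (by linarith), hd, hm]
      simp only [nsq3, Pi.sub_apply, grad_ub, pM, alphaF]
      ring
    have hc := abs_le.1 (abs_le_sqrt_nsq x)
    rw [h, Real.sqrt_one] at hc
    have hb : betaF (1 / 4) (x 0) < 4 / 5 := by rw [betaF]; linarith
    rw [e]
    exact mul_pos (pow_pos (by linarith) 2) hq

lemma exists_K : ∃ K, 0 < K ∧ ∀ x : V3, nsq x ≤ 1 → psi K x (ub x) (grad ub x) ≤ 1 := by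
  obtain ⟨U, hU, hUo, hU0⟩ := eventually_nhds_iff.1 (N_small (η := 9 / 50) (by norm_num))
  let S : Set V3 := {x : V3 | nsq x ≤ 1} ∩ Uᶜ
  have hS : IsCompact S := isCompact_ball.inter_right hUo.isClosed_compl
  have hS0 : ∀ x ∈ S, 0 < nsq x := fun x hx => nsq_pos (by rintro rfl; exact hx.2 hU0)
  have hF : ContinuousOn (fun x => vv x - ub x + nsq (grad ub x - grad vv x)) S := by
    intro x hx
    have hq2 : nsq x < 2 := by have : nsq x ≤ 1 := hx.1; linarith
    have h1 : ContinuousAt (grad ub) x :=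
      (contDiffAt_pi.2 fun i => contDiffAt_grad (m := 0) (k := 1) contDiff_ub.contDiffAt
        (by simp) i).continuousAt
    exact (((continuousAt_vv hx.1).sub (contDiff_ub (k := 0)).continuous.continuousAt).add
      (continuous_nsq.continuousAt.comp
        (h1.sub (contDiffAt_grad_vv (hS0 x hx) hq2).continuousAt))).continuousWithinAt
  have hG : ContinuousOn GG S := fun x hx =>
    (contDiffAt_GG (hS0 x hx) hx.1).continuousAt.continuousWithinAt
  obtain ⟨ε, hε, hεF⟩ := hS.exists_forall_le' hF (a := 0) fun x hx => gap_pos (hS0 x hx) hx.1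
  obtain ⟨C, hC⟩ := hS.bddAbove_image hG
  refine ⟨(|C| + 1) / ε, by positivity, fun x hx => ?_⟩
  have hub : Real.exp (ub x - 1) ≤ 1 := by
    apply Real.exp_le_one_iff.2
    rw [ub]; linarith
  have hp : nsq (grad ub x) < 1 := by rw [nsq_grad_ub]; linarith
  by_cases hxU : x ∈ U
  · have : zeta x (grad ub x) = 0 := by
      apply zeta_eq_zero hp
      have := hU x hxU
      rw [NN, nsq_grad_ub]; linarith
    simpa [psi, this] using hub
  · have hxS : x ∈ S := ⟨hx, hxU⟩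
    have h1 := hεF x hxS
    have h2 : GG x ≤ C := hC ⟨x, hxS, rfl⟩
    have h3 : (|C| + 1) / ε * (ub x - vv x - nsq (grad ub x - grad vv x)) ≤ -(|C| + 1) := by
      have : (|C| + 1) / ε * ε ≤ (|C| + 1) / ε * (vv x - ub x + nsq (grad ub x - grad vv x)) :=
        mul_le_mul_of_nonneg_left h1 (by positivity)
      rw [div_mul_cancel₀ _ hε.ne'] at this
      linarith
    have h4 : GG x * Real.exp ((|C| + 1) / ε * (ub x - vv x - nsq (grad ub x - grad vv x)))
        ≤ 1 := by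
      have h5 := Real.exp_le_exp.2 h3
      have h6 : |C| + 1 + 1 ≤ Real.exp (|C| + 1) := Real.add_one_le_exp _
      have h7 : GG x ≤ Real.exp (|C| + 1) := by linarith [le_abs_self C]
      calc _ ≤ Real.exp (|C| + 1) * Real.exp (-(|C| + 1)) :=
            mul_le_mul h7 h5 (Real.exp_pos _).le (Real.exp_pos _).le
        _ = 1 := by rw [← Real.exp_add]; simp
    have z0 := Real.smoothTransition.nonneg (2 * NN x / (1 - nsq (grad ub x)) - 1)
    have z1 := Real.smoothTransition.le_one (2 * NN x / (1 - nsq (grad ub x)) - 1)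
    have a1 := mul_le_mul_of_nonneg_left h4 z0
    have a2 := mul_le_mul_of_nonneg_left hub (sub_nonneg.2 z1)
    unfold psi zeta
    linarith

lemma no_solution {K : ℝ} (hK : 0 < K) (u : V3 → ℝ) (hc : ContinuousOn u {x | nsq x ≤ 1})
    (hd : ContDiffOn ℝ 2 u {x | nsq x < 1})
    (hsol : ∀ x, nsq x < 1 → nsq (grad u x) < 1 ∧
      ∃ κ, IsPrincipalCurv u x κ ∧ InGamma 2 κ ∧ sigma 2 κ = psi K x (u x) (grad u x))
    (hb : ∀ x, nsq x = 1 → u x = 1 / 4) : False := by
  have hopen : IsOpen {x : V3 | nsq x < 1} := isOpen_lt continuous_nsq continuous_const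
  have hu2 : ∀ x, nsq x < 1 → ContDiffAt ℝ 2 u x := fun x hx => hd.contDiffAt (hopen.mem_nhds hx)
  have hnhds : ∀ x, nsq x < 1 → {x : V3 | nsq x ≤ 1} ∈ 𝓝 x := fun x hx =>
    mem_of_superset (hopen.mem_nhds hx) fun y (hy : nsq y < 1) => hy.le
  have hfacts : ∀ x, nsq x < 1 → 0 < TT (1 - nsq (grad u x))⁻¹ (grad u x) (hess u x) ∧
      0 < curv2 (grad u x) (hess u x) ∧
      curv2 (grad u x) (hess u x) = psi K x (u x) (grad u x) := by
    intro x hx
    obtain ⟨hp, κ, hκ, hΓ, hσ⟩ := hsol x hx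
    obtain ⟨h1, h2⟩ := of_charpoly hκ
    obtain ⟨h3, h4⟩ := shape_facts u x hp (hess_sym (hu2 x hx))
    have h5 := hΓ 1 le_rfl (by norm_num)
    have h6 := hΓ 2 (by norm_num) le_rfl
    rw [← h1, h3] at h5
    rw [← h2, h4] at h6 hσ
    exact ⟨(div_pos_iff_of_pos_right (Real.sqrt_pos.2 (by linarith))).1 h5, h6, hσ⟩
  have h0 : nsq (0 : V3) < 1 := by rw [nsq_zero]; norm_num
  have hgrad0 : grad u 0 ≠ grad vv 0 := by
    intro h
    have := (hsol 0 h0).1
    rw [h, nsq_grad_vv_zero] at this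
    exact lt_irrefl _ this
  have hdu0 : DifferentiableAt ℝ u 0 := (hu2 0 h0).differentiableAt (by norm_num)
  have hdv0 : DifferentiableAt ℝ vv 0 := hasFDerivAt_vv_zero.differentiableAt
  have nomax : ¬ IsLocalMax (fun y => u y - vv y) 0 := fun h => hgrad0 <| by
    ext i
    have := grad_eq_zero_of_isLocalMax h i
    rw [grad_sub hdu0 hdv0] at this
    linarith
  have nomin : ¬ IsLocalMax (fun y => vv y - u y) 0 := fun h => hgrad0 <| by
    ext i
    have := grad_eq_zero_of_isLocalMax h i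
    rw [grad_sub hdv0 hdu0] at this
    linarith
  have hcv : ContinuousOn vv {x | nsq x ≤ 1} := fun x hx =>
    (continuousAt_vv hx).continuousWithinAt
  have hne : ({x : V3 | nsq x ≤ 1}).Nonempty := ⟨0, h0.le⟩
  have hle : ∀ x, nsq x ≤ 1 → u x - vv x ≤ 0 := by
    obtain ⟨x, hx, hmax⟩ := isCompact_ball.exists_isMaxOn hne (hc.sub hcv)
    suffices u x - vv x ≤ 0 from fun y hy => le_trans (hmax hy) this
    by_contra hpos
    push Not at hpos
    have hx1 : nsq x < 1 := lt_of_le_of_ne hx fun h => by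
      rw [hb x h, vv_sphere h] at hpos; linarith
    have hlm : IsLocalMax (fun y => u y - vv y) x := hmax.isLocalMax (hnhds x hx1)
    have hx0 : x ≠ 0 := by rintro rfl; exact nomax hlm
    have hq := nsq_pos hx0
    obtain ⟨f1, f2, f3⟩ := hfacts x hx1
    obtain ⟨g1, g2⟩ := curv2_le_of_isLocalMax (hu2 x hx1) (contDiffAt_vv hq (by linarith)) hlm
      (hsol x hx1).1 f1 f2
    rw [f3, g1, psi_self K _ hq hx1.le] at g2
    have hG : 0 < GG x := (vv_facts hq hx1.le).2.2.2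
    have h1 : 1 < Real.exp (K * (u x - vv x)) := Real.one_lt_exp_iff.2 (mul_pos hK hpos)
    have h2 := mul_lt_mul_of_pos_left h1 hG
    unfold GG at *
    linarith
  have hge : ∀ x, nsq x ≤ 1 → vv x - u x ≤ 0 := by
    obtain ⟨x, hx, hmax⟩ := isCompact_ball.exists_isMaxOn hne (hcv.sub hc)
    suffices vv x - u x ≤ 0 from fun y hy => le_trans (hmax hy) this
    by_contra hpos
    push Not at hpos
    have hx1 : nsq x < 1 := lt_of_le_of_ne hx fun h => by
      rw [hb x h, vv_sphere h] at hpos; linarith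
    have hlm : IsLocalMax (fun y => vv y - u y) x := hmax.isLocalMax (hnhds x hx1)
    have hx0 : x ≠ 0 := by rintro rfl; exact nomin hlm
    have hq := nsq_pos hx0
    obtain ⟨f1, f2, f3⟩ := hfacts x hx1
    obtain ⟨v1, _, v3, v4⟩ := vv_facts hq hx1.le
    obtain ⟨g1, g2⟩ := curv2_le_of_isLocalMax (contDiffAt_vv hq (by linarith)) (hu2 x hx1) hlm
      v1 v3 v4
    rw [f3, ← g1, psi_self K _ hq hx1.le] at g2
    have h1 : Real.exp (K * (u x - vv x)) < 1 :=
      Real.exp_lt_one_iff.2 (mul_neg_of_pos_of_neg hK (by linarith))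
    have h2 := mul_lt_mul_of_pos_left h1 v4
    unfold GG at *
    linarith
  apply nomax
  filter_upwards [hnhds 0 h0] with y hy
  have := hle y hy
  have := hge 0 h0.le
  linarith

end Pool.Agent.Lib.MP_88c759_an
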