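import Pool.Agent.Lib.MP_88c759_an.Ineq

namespace Pool.Agent.Lib.MP_88c759_an

open scoped BigOperators Topology ContDiff
open Filter

noncomputable def mu (q : ℝ) : ℝ := (4 - Real.log q / 200)⁻¹

/-- the singular solution -/
noncomputable def vv (y : V3) : ℝ := y 0 - mu (nsq y) * (4 * y 0 - √(nsq y))

lemma den_pos {q : ℝ} (hq : 0 < q) (hq2 : q < 2) : 0 < 4 - Real.log q / 200 := by
  have := Real.log_le_sub_one_of_pos hq
  linarith

lemma mu_pos {q : ℝ} (hq : 0 < q) (hq2 : q < 2) : 0 < mu q := inv_pos.2 (den_pos hq hq2)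

lemma mu_le {q : ℝ} (hq : 0 < q) (hq1 : q ≤ 1) : mu q ≤ 1 / 4 := by
  have h := Real.log_nonpos hq.le hq1
  rw [mu, one_div]
  exact inv_anti₀ (by norm_num) (by linarith)

lemma mu_one : mu 1 = 1 / 4 := by simp [mu]

lemma hasDerivAt_mu {q : ℝ} (hq : 0 < q) (hq2 : q < 2) :
    HasDerivAt mu (mu q ^ 2 / (200 * q)) q := by
  have h := (((Real.hasDerivAt_log hq.ne').div_const 200).const_sub 4).inv (den_pos hq hq2).ne'
  have hd := (den_pos hq hq2).ne'
  refine HasDerivAt.congr_deriv h ?_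
  simp only [mu]
  field_simp

lemma contDiffAt_mu {q : ℝ} (hq : 0 < q) (hq2 : q < 2) {k : ℕ∞ω} : ContDiffAt ℝ k mu q := by
  unfold mu
  exact (contDiffAt_const.sub ((Real.contDiffAt_log.2 hq.ne').div_const 200)).inv
    (den_pos hq hq2).ne'

lemma contDiffAt_vv {x : V3} (hq : 0 < nsq x) (hq2 : nsq x < 2) {k : ℕ∞ω} :
    ContDiffAt ℝ k vv x := by
  have h1 : ContDiffAt ℝ k (fun y : V3 => mu (nsq y)) x :=
    (contDiffAt_mu hq hq2).comp x contDiff_nsq.contDiffAt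
  have h2 : ContDiffAt ℝ k (fun y : V3 => √(nsq y)) x :=
    contDiff_nsq.contDiffAt.sqrt hq.ne'
  have h3 : ContDiffAt ℝ k (fun y : V3 => y 0) x := contDiffAt_apply ℝ ℝ 0 x
  unfold vv
  exact h3.sub (h1.mul ((contDiffAt_const.mul h3).sub h2))

noncomputable def fa (q : ℝ) : ℝ := 1 - 4 * mu q
noncomputable def fc (q : ℝ) : ℝ := mu q * √q
noncomputable def fA (q : ℝ) : ℝ := (mu q ^ 2 / 100 + mu q) / √q
noncomputable def fB (q : ℝ) : ℝ := -(mu q ^ 2 / 25) / q

lemma hasDerivAt_fa {q : ℝ} (hq : 0 < q) (hq2 : q < 2) : HasDerivAt fa (fB q / 2) q := by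
  have h := ((hasDerivAt_mu hq hq2).const_mul 4).const_sub 1
  refine HasDerivAt.congr_deriv h ?_
  simp only [fB]
  field_simp
  ring

lemma hasDerivAt_fc {q : ℝ} (hq : 0 < q) (hq2 : q < 2) : HasDerivAt fc (fA q / 2) q := by
  have h := (hasDerivAt_mu hq hq2).mul (Real.hasDerivAt_sqrt hq.ne')
  refine HasDerivAt.congr_deriv h ?_
  simp only [fA]
  have hr : 0 < √q := Real.sqrt_pos.2 hq
  have hs : √q * √q = q := Real.mul_self_sqrt hq.le
  generalize √q = r at *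
  subst hs
  field_simp
  ring

lemma hasDerivAt_fA {q : ℝ} (hq : 0 < q) (hq2 : q < 2) :
    HasDerivAt fA ((mu q ^ 3 / 10000 - mu q / 2) / (q * √q)) q := by
  have hr : 0 < √q := Real.sqrt_pos.2 hq
  have h := ((((hasDerivAt_mu hq hq2).pow 2).div_const 100).add (hasDerivAt_mu hq hq2)).div
    (Real.hasDerivAt_sqrt hq.ne') hr.ne'
  refine HasDerivAt.congr_deriv h ?_
  have hs : √q * √q = q := Real.mul_self_sqrt hq.le
  simp only [Pi.add_apply, Pi.pow_apply]
  generalize √q = r at *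
  generalize mu q = m at *
  subst hs
  field_simp
  ring

lemma hasDerivAt_fB {q : ℝ} (hq : 0 < q) (hq2 : q < 2) :
    HasDerivAt fB ((mu q ^ 2 / 25 - mu q ^ 3 / 2500) / q ^ 2) q := by
  have h := ((((hasDerivAt_mu hq hq2).pow 2).div_const 25).neg).div (hasDerivAt_id q) hq.ne'
  refine HasDerivAt.congr_deriv h ?_
  simp only [Pi.neg_apply, Pi.pow_apply, id]
  generalize mu q = m at *
  field_simp
  ring

lemma grad_vv {x : V3} (hq : 0 < nsq x) (hq2 : nsq x < 2) (j : Fin 3) :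
    grad vv x j = fA (nsq x) * x j + fB (nsq x) * x 0 * x j
      + fa (nsq x) * (if j = 0 then 1 else 0) := by
  have e : vv = fun y => fa (nsq y) * y 0 + (fun _ => (0 : ℝ)) (nsq y) * y 0 * y 0 + fc (nsq y) := by
    ext y; simp only [vv, fa, fc]; ring
  rw [e, grad_radial x 0 (hasDerivAt_fa hq hq2) (hasDerivAt_const _ _) (hasDerivAt_fc hq hq2)]
  ring

lemma eventually_dom {x : V3} (hq : 0 < nsq x) (hq2 : nsq x < 2) :
    ∀ᶠ y in 𝓝 x, 0 < nsq y ∧ nsq y < 2 :=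
  (continuous_nsq.continuousAt.eventually (lt_mem_nhds hq)).and
    (continuous_nsq.continuousAt.eventually (gt_mem_nhds hq2))

lemma hess_vv {x : V3} (hq : 0 < nsq x) (hq2 : nsq x < 2) (i j : Fin 3) :
    hess vv x i j =
      2 * x i * ((mu (nsq x) ^ 3 / 10000 - mu (nsq x) / 2) / (nsq x * √(nsq x)) * x j
        + (mu (nsq x) ^ 2 / 25 - mu (nsq x) ^ 3 / 2500) / nsq x ^ 2 * x 0 * x j
        + fB (nsq x) / 2 * (if j = 0 then 1 else 0))
      + (fA (nsq x) + fB (nsq x) * x 0) * (if i = j then 1 else 0)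
      + fB (nsq x) * x j * (if i = 0 then 1 else 0) := by
  have e : (fun y => grad vv y j) =ᶠ[𝓝 x] fun y => fA (nsq y) * y j + fB (nsq y) * y 0 * y j
      + (fun q => fa q * (if j = 0 then 1 else 0)) (nsq y) := by
    filter_upwards [eventually_dom hq hq2] with y hy using grad_vv hy.1 hy.2 j
  simp only [hess, Matrix.of_apply]
  rw [grad_congr e, grad_radial x j (hasDerivAt_fA hq hq2) (hasDerivAt_fB hq hq2)
    ((hasDerivAt_fa hq hq2).mul_const _)]

/-- unit direction -/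
noncomputable def dir (x : V3) : V3 := fun i => x i / √(nsq x)

lemma nsq_dir {x : V3} (hq : 0 < nsq x) : nsq (dir x) = 1 := by
  have hs : √(nsq x) ^ 2 = nsq x := Real.sq_sqrt hq.le
  have hr : 0 < √(nsq x) := Real.sqrt_pos.2 hq
  rw [nsq3]
  simp only [dir, div_pow, hs]
  rw [← add_div, ← add_div, ← nsq3, div_self hq.ne']

lemma grad_vv_model {x : V3} (hq : 0 < nsq x) (hq2 : nsq x < 2) :
    grad vv x = pM (alphaF (mu (nsq x))) (betaF (mu (nsq x)) (dir x 0)) (dir x) := by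
  ext j
  rw [grad_vv hq hq2]
  have hs : √(nsq x) * √(nsq x) = nsq x := Real.mul_self_sqrt hq.le
  have hr : 0 < √(nsq x) := Real.sqrt_pos.2 hq
  simp only [pM, alphaF, betaF, dir, fA, fB, fa]
  generalize √(nsq x) = r at *
  generalize mu (nsq x) = m at *
  rw [← hs]
  field_simp
  ring

lemma hess_vv_model {x : V3} (hq : 0 < nsq x) (hq2 : nsq x < 2) :
    hess vv x = AM (betaF (mu (nsq x)) (dir x 0)) (kappaF (mu (nsq x)) (dir x 0))
      (epsF (mu (nsq x))) (√(nsq x)) (dir x) := by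
  ext i j
  rw [hess_vv hq hq2]
  have hs : √(nsq x) * √(nsq x) = nsq x := Real.mul_self_sqrt hq.le
  have hr : 0 < √(nsq x) := Real.sqrt_pos.2 hq
  simp only [AM, Matrix.of_apply, betaF, kappaF, epsF, dir, fA, fB]
  generalize √(nsq x) = r at *
  generalize mu (nsq x) = m at *
  rw [← hs]
  field_simp
  ring

lemma vv_facts {x : V3} (hq : 0 < nsq x) (hq1 : nsq x ≤ 1) :
    nsq (grad vv x) < 1 ∧ 1 - nsq (grad vv x) ≤ 11 * mu (nsq x) ∧
      0 < TT (1 - nsq (grad vv x))⁻¹ (grad vv x) (hess vv x) ∧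
      0 < curv2 (grad vv x) (hess vv x) := by
  have hq2 : nsq x < 2 := by linarith
  rw [grad_vv_model hq hq2, hess_vv_model hq hq2]
  exact model_facts _ _ _ (mu_pos hq hq2) (mu_le hq hq1) (Real.sqrt_pos.2 hq) (nsq_dir hq)

lemma nsq_eq_zero {x : V3} (h : nsq x = 0) : x = 0 := by
  rw [nsq3] at h
  have h0 : x 0 = 0 := by nlinarith [sq_nonneg (x 0), sq_nonneg (x 1), sq_nonneg (x 2)]
  have h1 : x 1 = 0 := by nlinarith [sq_nonneg (x 0), sq_nonneg (x 1), sq_nonneg (x 2)]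
  have h2 : x 2 = 0 := by nlinarith [sq_nonneg (x 0), sq_nonneg (x 1), sq_nonneg (x 2)]
  ext i; fin_cases i <;> simp [h0, h1, h2]

lemma nsq_pos {x : V3} (h : x ≠ 0) : 0 < nsq x :=
  lt_of_le_of_ne (nsq_nonneg x) fun h' => h (nsq_eq_zero h'.symm)

lemma nsq_zero : nsq (0 : V3) = 0 := by simp [nsq]

lemma nsq_small {η : ℝ} (hη : 0 < η) : ∀ᶠ x : V3 in 𝓝 0, nsq x < η := by
  apply continuous_nsq.continuousAt.eventually (gt_mem_nhds _)
  show nsq (0 : V3) < η
  rwa [nsq_zero]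

/-- `μ(|x|²)` is small near the origin -/
lemma mu_small {η : ℝ} (hη : 0 < η) : ∀ᶠ x : V3 in 𝓝 0, x ≠ 0 → mu (nsq x) ≤ η := by
  have h : ∀ᶠ x : V3 in 𝓝 0, nsq x < Real.exp (-(200 / η)) := nsq_small (Real.exp_pos _)
  filter_upwards [h] with x hx hx0
  have hq := nsq_pos hx0
  have h1 : Real.log (nsq x) < -(200 / η) := (Real.log_lt_iff_lt_exp hq).2 hx
  have h2 : η⁻¹ ≤ 4 - Real.log (nsq x) / 200 := by
    have : 200 / η = 200 * η⁻¹ := div_eq_mul_inv _ _
    linarith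
  rw [mu]
  exact inv_le_of_inv_le₀ hη h2

lemma abs_le_sqrt_nsq (x : V3) : |x 0| ≤ √(nsq x) := by
  apply Real.abs_le_sqrt
  rw [nsq3]; nlinarith [sq_nonneg (x 1), sq_nonneg (x 2)]

lemma sqrt_nsq_le (x : V3) : √(nsq x) ≤ 2 * ‖x‖ := by
  apply Real.sqrt_le_iff.2
  refine ⟨by positivity, ?_⟩
  have h := fun i => norm_le_pi_norm x i
  have h' : ∀ i, x i ^ 2 ≤ ‖x‖ ^ 2 := fun i => by
    have := h i
    rw [Real.norm_eq_abs] at this
    rw [← sq_abs]
    exact pow_le_pow_left₀ (abs_nonneg _) this 2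
  rw [nsq3]
  nlinarith [h' 0, h' 1, h' 2, sq_nonneg ‖x‖]

lemma vv_zero : vv 0 = 0 := by simp [vv, nsq_zero]

lemma hasFDerivAt_vv_zero :
    HasFDerivAt vv (ContinuousLinearMap.proj (R := ℝ) (φ := fun _ : Fin 3 => ℝ) 0) 0 := by
  rw [hasFDerivAt_iff_isLittleO_nhds_zero, Asymptotics.isLittleO_iff]
  intro c hc
  have h2 : ∀ᶠ x : V3 in 𝓝 0, nsq x < 2 := nsq_small two_pos
  filter_upwards [mu_small (η := c / 10) (by positivity), h2] with x hx hx2
  by_cases hx0 : x = 0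
  · subst hx0; simp [vv_zero]
  · have hm := hx hx0
    have hm0 := mu_pos (nsq_pos hx0) hx2
    have e : vv (0 + x) - vv 0 - ContinuousLinearMap.proj (R := ℝ) (φ := fun _ : Fin 3 => ℝ) 0 x
        = -(mu (nsq x) * (4 * x 0 - √(nsq x))) := by
      rw [vv_zero, zero_add]; simp [vv]
    rw [e, norm_neg, norm_mul, Real.norm_eq_abs, Real.norm_eq_abs, abs_of_pos hm0]
    have h3 := abs_le.1 (abs_le_sqrt_nsq x)
    have h4 := sqrt_nsq_le x
    have h5 : |4 * x 0 - √(nsq x)| ≤ 10 * ‖x‖ := by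
      rw [abs_le]; constructor <;> linarith [Real.sqrt_nonneg (nsq x)]
    calc mu (nsq x) * |4 * x 0 - √(nsq x)| ≤ c / 10 * (10 * ‖x‖) :=
          mul_le_mul hm h5 (abs_nonneg _) (by positivity)
      _ = c * ‖x‖ := by ring

lemma nsq_grad_vv_zero : nsq (grad vv 0) = 1 := by
  simp [nsq3, grad, hasFDerivAt_vv_zero.fderiv]

lemma continuousAt_vv {x : V3} (hx : nsq x ≤ 1) : ContinuousAt vv x := by
  by_cases hx0 : x = 0
  · subst hx0; exact hasFDerivAt_vv_zero.continuousAt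
  · exact (contDiffAt_vv (k := 0) (nsq_pos hx0) (by linarith)).continuousAt

/-- `1 - |Dv|²` tends to zero at the origin -/
lemma N_small {η : ℝ} (hη : 0 < η) : ∀ᶠ x : V3 in 𝓝 0, 1 - nsq (grad vv x) ≤ η := by
  have h2 : ∀ᶠ x : V3 in 𝓝 0, nsq x < 1 := nsq_small one_pos
  filter_upwards [mu_small (η := η / 11) (by positivity), h2] with x hx hx2
  by_cases hx0 : x = 0
  · subst hx0; rw [nsq_grad_vv_zero]; linarith
  · have := (vv_facts (nsq_pos hx0) hx2.le).2.1
    have := hx hx0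
    linarith

lemma vv_sphere {x : V3} (hx : nsq x = 1) : vv x = 1 / 4 := by
  simp only [vv, hx, mu_one, Real.sqrt_one]; ring

lemma vv_lower {x : V3} (hx : nsq x < 1) : 2 / 5 * (nsq x - 1) + 1 / 4 < vv x := by
  by_cases hx0 : x = 0
  · subst hx0; rw [vv_zero, nsq_zero]; norm_num
  have hq := nsq_pos hx0
  have hs : √(nsq x) * √(nsq x) = nsq x := Real.mul_self_sqrt hq.le
  have hr : 0 < √(nsq x) := Real.sqrt_pos.2 hq
  have hr1 : √(nsq x) < 1 := by
    rw [Real.sqrt_lt' one_pos]; simpa using hx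
  have h3 := abs_le.1 (abs_le_sqrt_nsq x)
  have hm := mu_le hq hx.le
  have hm0 := mu_pos hq (by linarith)
  have hlog : Real.log (nsq x) = 2 * Real.log √(nsq x) := by
    rw [Real.log_sqrt hq.le]; ring
  have hl : 1 - (√(nsq x))⁻¹ ≤ Real.log √(nsq x) := Real.one_sub_inv_le_log_of_pos hr
  have hmu : mu (nsq x) * (4 - Real.log (nsq x) / 200) = 1 :=
    inv_mul_cancel₀ (den_pos hq (by linarith)).ne'
  have hl0 : Real.log √(nsq x) ≤ 0 := Real.log_nonpos hr.le hr1.le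
  rw [vv]
  rw [hlog] at hmu
  generalize Real.log √(nsq x) = L at *
  generalize mu (nsq x) = m at *
  generalize √(nsq x) = r at *
  rw [← hs]
  have hrl : r - 1 ≤ r * L := by
    have := mul_le_mul_of_nonneg_left hl hr.le
    rw [mul_sub, mul_inv_cancel₀ hr.ne'] at this
    linarith
  -- d = 1 - 4 m = - m L / 100
  have hd : 1 - 4 * m = -(m * L) / 100 := by linarith
  have hd0 : 0 ≤ 1 - 4 * m := by linarith
  have h4 : -r * (1 - 4 * m) ≤ x 0 * (1 - 4 * m) := mul_le_mul_of_nonneg_right h3.1 hd0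
  have h5 : (r - 1) * m ≤ r * L * m := mul_le_mul_of_nonneg_right hrl hm0.le
  have h6 : (1 - r) * m ≤ (1 - r) * (1 / 4) := mul_le_mul_of_nonneg_left hm (by linarith)
  have h7 : r * (1 - 4 * m) ≤ (1 - r) / 400 := by
    rw [hd]; linarith
  have h8 : 0 ≤ (1 - r) * r := mul_nonneg (by linarith) hr.le
  nlinarith

end Pool.Agent.Lib.MP_88c759_an
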